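import Mathlib

set_option autoImplicit false

namespace Pool.Agent.Metab

open MvPolynomial

/-- The polynomials `m_i(s)`. -/
noncomputable def mP : ℕ → ℕ → MvPolynomial ℕ ℤ
  | 0, s => if s = 0 then X 2 else if s = 2 then X 3 else 0
  | (i + 1), s =>
    if s < 2 * i + 3 then - X 1 * (2 * X (2 * i + 5)) * mP i s
    else if s = 2 * i + 3 then X 1 * (2 * X (2 * i + 4)) * (2 * X (2 * i + 5))
    else if s = 2 * i + 4 then
      (1 - 4 * X 1 * ∑ r ∈ Finset.range (2 * i + 3), (mP i r) ^ 2) - X 1 * (2 * X (2 * i + 4)) ^ 2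
    else 0

/-- The polynomials `k_i(s)`. -/
noncomputable def kP (i s : ℕ) : MvPolynomial ℕ ℤ :=
  if s < 2 * i + 3 then -4 * mP i s
  else if s = 2 * i + 3 then 2 * X (2 * i + 4)
  else if s = 2 * i + 4 then 2 * X (2 * i + 5)
  else 0

theorem mP_zero (s : ℕ) : mP 0 s = if s = 0 then X 2 else if s = 2 then X 3 else 0 := by
  rw [mP]

theorem mP_succ (i s : ℕ) : mP (i + 1) s =
    if s < 2 * i + 3 then - X 1 * (2 * X (2 * i + 5)) * mP i s
    else if s = 2 * i + 3 then X 1 * (2 * X (2 * i + 4)) * (2 * X (2 * i + 5))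
    else if s = 2 * i + 4 then
      (1 - 4 * X 1 * ∑ r ∈ Finset.range (2 * i + 3), (mP i r) ^ 2) - X 1 * (2 * X (2 * i + 4)) ^ 2
    else 0 := by
  rw [mP]

theorem mP_eq_zero {i s : ℕ} (h : 2 * i + 3 ≤ s) : mP i s = 0 := by
  cases i with
  | zero =>
    rw [mP_zero, if_neg (by omega), if_neg (by omega)]
  | succ i =>
    rw [mP_succ, if_neg (by omega), if_neg (by omega), if_neg (by omega)]

theorem mP_one (i : ℕ) : mP i 1 = 0 := by
  induction i with
  | zero => rw [mP_zero, if_neg (by omega), if_neg (by omega)]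
  | succ i ih => rw [mP_succ, if_pos (by omega), ih, mul_zero]

theorem mP_succ_lt {i s : ℕ} (h : s < 2 * i + 3) :
    mP (i + 1) s = - X 1 * (2 * X (2 * i + 5)) * mP i s := by
  rw [mP_succ, if_pos h]

theorem key (i : ℕ) :
    ∑ s ∈ Finset.range (2 * i + 5), kP i s * mP (i + 1) s = 2 * X (2 * i + 5) := by
  rw [Finset.sum_range_succ, Finset.sum_range_succ]
  have h1 : ∑ s ∈ Finset.range (2 * i + 3), kP i s * mP (i + 1) s =
      4 * X 1 * (2 * X (2 * i + 5)) * ∑ r ∈ Finset.range (2 * i + 3), (mP i r) ^ 2 := by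
    rw [Finset.mul_sum]
    refine Finset.sum_congr rfl fun s hs => ?_
    have hs' : s < 2 * i + 3 := Finset.mem_range.1 hs
    rw [mP_succ_lt hs', kP, if_pos hs']
    ring
  have h2 : kP i (2 * i + 3) = 2 * X (2 * i + 4) := by
    rw [kP, if_neg (by omega), if_pos rfl]
  have h3 : kP i (2 * i + 4) = 2 * X (2 * i + 5) := by
    rw [kP, if_neg (by omega), if_neg (by omega), if_pos rfl]
  have h4 : mP (i + 1) (2 * i + 3) = X 1 * (2 * X (2 * i + 4)) * (2 * X (2 * i + 5)) := by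
    rw [mP_succ, if_neg (by omega), if_pos rfl]
  have h5 : mP (i + 1) (2 * i + 4) = (1 - 4 * X 1 * ∑ r ∈ Finset.range (2 * i + 3), (mP i r) ^ 2)
      - X 1 * (2 * X (2 * i + 4)) ^ 2 := by
    rw [mP_succ, if_neg (by omega), if_neg (by omega), if_pos rfl]
  rw [h1, h2, h3, h4, h5]
  ring

end Pool.Agent.Metab
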