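import Mathlib
import Pool.Agent.Metab.Poly

set_option autoImplicit false

namespace Pool.Agent.Metab

open MvPolynomial

/-- Metabelian groups. -/
class IsMetab (H : Type) [Group H] : Prop where
  comm : ∀ a b : H, a ∈ commutator H → b ∈ commutator H → a * b = b * a

theorem isMetab_of {H : Type} [Group H] (h : derivedSeries H 2 = ⊥) : IsMetab H := by
  refine ⟨fun a b ha hb => ?_⟩
  have h2 : ⁅commutator H, commutator H⁆ = ⊥ := by
    rw [← h, derivedSeries_succ, derivedSeries_one]
  rw [Subgroup.commutator_eq_bot_iff_le_centralizer] at h2
  exact (Subgroup.mem_centralizer_iff.1 (h2 ha) b hb).symm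

theorem isMetab_derivedSeries {H : Type} [Group H] [hH : IsMetab H] : derivedSeries H 2 = ⊥ := by
  rw [derivedSeries_succ, derivedSeries_one, Subgroup.commutator_eq_bot_iff_le_centralizer]
  intro a ha
  rw [Subgroup.mem_centralizer_iff]
  intro b hb
  exact hH.comm b a hb ha

/-- The derived subgroup, written additively. -/
def DA (H : Type) [Group H] : Type := Additive (commutator H)

section
variable {H : Type} [Group H]

noncomputable instance : AddGroup (DA H) := inferInstanceAs (AddGroup (Additive (commutator H)))

noncomputable instance [hH : IsMetab H] : AddCommGroup (DA H) :=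
  { (inferInstance : AddGroup (DA H)) with
    add_comm := fun a b => by
      have h := hH.comm (a.toMul : commutator H) (b.toMul : commutator H) a.toMul.2 b.toMul.2
      exact Additive.toMul.injective (Subtype.ext h) }

/-- underlying group element -/
def val (n : DA H) : H := ((Additive.toMul n : commutator H) : H)

/-- constructor -/
def mkD (g : H) (hg : g ∈ commutator H) : DA H := Additive.ofMul (⟨g, hg⟩ : commutator H)

@[simp] theorem val_mkD (g : H) (hg : g ∈ commutator H) : val (mkD g hg) = g := rfl

theorem val_mem (n : DA H) : val n ∈ commutator H := (Additive.toMul n : commutator H).2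

theorem val_injective : Function.Injective (val : DA H → H) := fun a b h =>
  Additive.toMul.injective (Subtype.ext h)

@[simp] theorem val_add (a b : DA H) : val (a + b) = val a * val b := rfl
@[simp] theorem val_zero : val (0 : DA H) = 1 := rfl
@[simp] theorem val_neg (a : DA H) : val (-a) = (val a)⁻¹ := rfl

end

section
variable {H : Type} [Group H] [hH : IsMetab H]

@[simp] theorem val_addC (a b : DA H) : val (a + b) = val a * val b := rfl
@[simp] theorem val_zeroC : val (0 : DA H) = 1 := rfl
@[simp] theorem val_negC (a : DA H) : val (-a) = (val a)⁻¹ := rfl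
@[simp] theorem val_subC (a b : DA H) : val (a - b) = val a * (val b)⁻¹ := by
  rw [sub_eq_add_neg, val_addC, val_negC]

/-- conjugation -/
noncomputable def conjD : H →* Module.End ℤ (DA H) where
  toFun g := AddMonoidHom.toIntLinearMap
    { toFun := fun n => mkD (g * val n * g⁻¹) ((inferInstance : (commutator H).Normal).conj_mem _ (val_mem n) g)
      map_zero' := val_injective (by simp)
      map_add' := fun a b => val_injective (by simp) }
  map_one' := by
    ext n
    exact val_injective (by simp)
  map_mul' a b := by
    ext n
    exact val_injective (by simp [mul_assoc])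

@[simp] theorem val_conjD (g : H) (n : DA H) : val (conjD g n) = g * val n * g⁻¹ := rfl

/-- action of the abelianization -/
noncomputable def conjQ : Representation ℤ (Abelianization H) (DA H) :=
  QuotientGroup.lift (commutator H) conjD (by
    intro g hg
    ext n
    apply val_injective
    rw [val_conjD, hH.comm g (val n) hg (val_mem n)]
    simp)

theorem conjQ_of (g : H) : conjQ (Abelianization.of g) = conjD g := rfl

/-- the polynomial action -/
noncomputable def act (h : ℕ → H) : MvPolynomial ℕ ℤ →ₐ[ℤ] Module.End ℤ (DA H) :=
  conjQ.asAlgebraHom.comp (aeval (fun s => MonoidAlgebra.of ℤ _ (Abelianization.of (h s)) - 1))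

theorem act_X (h : ℕ → H) (s : ℕ) (n : DA H) : act h (X s) n = conjD (h s) n - n := by
  rw [act, AlgHom.comp_apply, aeval_X, map_sub, map_one, Representation.asAlgebraHom_of, conjQ_of]
  rfl

theorem act_congr {h h' : ℕ → H} (hh : ∀ s, Abelianization.of (h s) = Abelianization.of (h' s)) :
    act h = act h' := by
  unfold act
  simp only [hh]

end

section
variable {H K : Type} [Group H] [Group K] [hH : IsMetab H] [hK : IsMetab K]

/-- induced map on derived subgroups -/
noncomputable def mapD (f : H →* K) : DA H →+ DA K where
  toFun n := mkD (f (val n)) (by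
    have := Subgroup.mem_map_of_mem f (val_mem n)
    rw [commutator_def, Subgroup.map_commutator] at this
    rw [commutator_def]
    exact Subgroup.commutator_mono le_top le_top this)
  map_zero' := val_injective (by simp)
  map_add' a b := val_injective (by simp)

@[simp] theorem val_mapD (f : H →* K) (n : DA H) : val (mapD f n) = f (val n) := rfl

theorem mapD_act (f : H →* K) (h : ℕ → H) (p : MvPolynomial ℕ ℤ) :
    ∀ n : DA H, mapD f (act h p n) = act (fun s => f (h s)) p (mapD f n) := by
  induction p using MvPolynomial.induction_on with
  | C a =>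
    intro n
    rw [show (C a : MvPolynomial ℕ ℤ) = algebraMap ℤ _ a from rfl, AlgHom.commutes,
      AlgHom.commutes, Module.algebraMap_end_apply, Module.algebraMap_end_apply, map_zsmul]
  | add p q hp hq =>
    intro n
    rw [map_add, map_add, LinearMap.add_apply, LinearMap.add_apply, map_add, hp, hq]
  | mul_X p s hp =>
    intro n
    rw [map_mul, map_mul, Module.End.mul_apply, Module.End.mul_apply, hp, act_X, act_X, map_sub]
    congr 1
    congr 1
    exact val_injective (by simp)

end

section
variable {H : Type} [Group H]

/-- commutator as an element of the derived group -/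
def cm (a b : H) : DA H := mkD (a * b * a⁻¹ * b⁻¹)
  (Subgroup.commutator_mem_commutator (H₁ := ⊤) (H₂ := ⊤) (Subgroup.mem_top a) (Subgroup.mem_top b))

@[simp] theorem val_cm (a b : H) : val (cm a b) = a * b * a⁻¹ * b⁻¹ := rfl

variable [hH : IsMetab H]

theorem cm_mul (a b : H) (n : DA H) : cm a (val n * b) = cm a b + (conjD a n - n) := by
  apply val_injective
  have h : val n * val (cm a b) * (val n)⁻¹ = val (cm a b) := by
    rw [hH.comm _ _ (val_mem n) (val_mem _)]
    group
  have h2 : val (cm a b) = a * b * a⁻¹ * b⁻¹ := rfl
  have h3 : val (cm a b + (conjD a n - n)) = val ((conjD a n - n) + cm a b) := by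
    rw [add_comm]
  rw [h3, val_addC, val_subC, val_conjD, ← h, h2]
  simp only [val_cm, mul_inv_rev]
  group

/-- the commutator expression `κ_i(h)` -/
noncomputable def kap (i : ℕ) (h : ℕ → H) : DA H :=
  ∑ s ∈ Finset.range (2 * i + 5), act h (kP i s) (cm (h 1) (h s))

/-- the operation `α_i` -/
noncomputable def alp (i : ℕ) (h : ℕ → H) (s : ℕ) : H :=
  val (act h (mP i s) (kap i h)) * h s

end

section
variable {H K : Type} [Group H] [Group K] [hH : IsMetab H] [hK : IsMetab K]

theorem mapD_kap (f : H →* K) (i : ℕ) (h : ℕ → H) :
    mapD f (kap i h) = kap i (fun s => f (h s)) := by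
  unfold kap
  rw [map_sum]
  refine Finset.sum_congr rfl fun s _ => ?_
  rw [mapD_act]
  congr 1
  exact val_injective (by simp)

theorem map_alp (f : H →* K) (i : ℕ) (h : ℕ → H) (s : ℕ) :
    f (alp i h s) = alp i (fun s => f (h s)) s := by
  unfold alp
  rw [map_mul, ← val_mapD, mapD_act, mapD_kap]

end

theorem alp_eq {H : Type} [Group H] [IsMetab H] {i s : ℕ} (hs : 2 * i + 3 ≤ s) (h : ℕ → H) :
    alp i h s = h s := by
  rw [alp, mP_eq_zero hs, map_zero, LinearMap.zero_apply, val_zeroC, one_mul]

end Pool.Agent.Metab
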