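import Mathlib
import Pool.Agent.Metab.Act

set_option autoImplicit false

namespace Pool.Agent.Metab

open MvPolynomial

theorem isMetab_of_surjective {H K : Type} [Group H] [Group K] [IsMetab H] (f : H →* K)
    (hf : Function.Surjective f) : IsMetab K := by
  apply isMetab_of
  rw [← map_derivedSeries_eq hf, isMetab_derivedSeries, Subgroup.map_bot]

instance isMetab_comm {K : Type} [CommGroup K] : IsMetab K := ⟨fun a b _ _ => mul_comm a b⟩

/-- free metabelian group -/
abbrev FM (α : Type) : Type := FreeGroup α ⧸ derivedSeries (FreeGroup α) 2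

instance (α : Type) : IsMetab (FM α) := by
  apply isMetab_of
  rw [← map_derivedSeries_eq (QuotientGroup.mk'_surjective (derivedSeries (FreeGroup α) 2)),
    QuotientGroup.map_mk'_self]

namespace FM
variable {α : Type}

/-- generator -/
def of (a : α) : FM α := QuotientGroup.mk (FreeGroup.of a)

/-- universal property -/
noncomputable def lift {H : Type} [Group H] [IsMetab H] (f : α → H) : FM α →* H :=
  QuotientGroup.lift _ (FreeGroup.lift f) (by
    intro x hx
    have h := map_derivedSeries_le_derivedSeries (FreeGroup.lift f) 2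
    rw [isMetab_derivedSeries (H := H)] at h
    exact (Subgroup.mem_bot).1 (h (Subgroup.mem_map_of_mem _ hx)))

@[simp] theorem lift_of {H : Type} [Group H] [IsMetab H] (f : α → H) (a : α) :
    lift f (of a) = f a := by
  show FreeGroup.lift f (FreeGroup.of a) = f a
  exact FreeGroup.lift_apply_of

theorem hom_ext {H : Type} [Group H] {f g : FM α →* H} (h : ∀ a, f (of a) = g (of a)) : f = g := by
  apply QuotientGroup.monoidHom_ext
  ext a
  exact h a

theorem mk_eq_lift (w : FreeGroup α) :
    (QuotientGroup.mk w : FM α) = FreeGroup.lift (of : α → FM α) w := by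
  have : QuotientGroup.mk' (derivedSeries (FreeGroup α) 2) = FreeGroup.lift (of : α → FM α) := by
    apply FreeGroup.ext_hom
    intro a
    rw [FreeGroup.lift_apply_of]
    rfl
  exact DFunLike.congr_fun this w

end FM

/-- the relators -/
noncomputable def rels : Set (FM (ℕ × ℕ)) :=
  Set.range (fun p : ℕ × ℕ => FM.of p * (alp p.1 (fun r => FM.of (p.1 + 1, r)) p.2)⁻¹)

/-- the group -/
def GG : Type := FM (ℕ × ℕ) ⧸ Subgroup.normalClosure rels

noncomputable instance : Group GG :=
  inferInstanceAs (Group (FM (ℕ × ℕ) ⧸ Subgroup.normalClosure rels))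

/-- projection -/
noncomputable def prj : FM (ℕ × ℕ) →* GG := QuotientGroup.mk' (Subgroup.normalClosure rels)

theorem prj_surjective : Function.Surjective prj := QuotientGroup.mk'_surjective _

instance : IsMetab GG := isMetab_of_surjective prj prj_surjective

/-- generators -/
noncomputable def c (i s : ℕ) : GG := prj (FM.of (i, s))

theorem c_rel (i s : ℕ) : c i s = alp i (c (i + 1)) s := by
  have h : FM.of (i, s) * (alp i (fun r => FM.of (i + 1, r)) s)⁻¹ ∈ Subgroup.normalClosure rels :=
    Subgroup.subset_normalClosure ⟨(i, s), rfl⟩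
  have h2 : prj (FM.of (i, s) * (alp i (fun r => FM.of (i + 1, r)) s)⁻¹) = 1 :=
    (QuotientGroup.eq_one_iff _).2 h
  rw [map_mul, map_inv, map_alp, mul_inv_eq_one] at h2
  exact h2

/-- universal property -/
noncomputable def GG.lift {K : Type} [Group K] [IsMetab K] (f : ℕ → ℕ → K)
    (hf : ∀ i s, f i s = alp i (f (i + 1)) s) : GG →* K :=
  QuotientGroup.lift (Subgroup.normalClosure rels) (FM.lift (fun p : ℕ × ℕ => f p.1 p.2)) (by
    apply Subgroup.normalClosure_le_normal
    rintro _ ⟨⟨i, s⟩, rfl⟩
    rw [SetLike.mem_coe, MonoidHom.mem_ker, map_mul, map_inv, map_alp, FM.lift_of]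
    simp only [FM.lift_of]
    rw [← hf, mul_inv_cancel])

@[simp] theorem GG.lift_c {K : Type} [Group K] [IsMetab K] (f : ℕ → ℕ → K)
    (hf : ∀ i s, f i s = alp i (f (i + 1)) s) (i s : ℕ) : GG.lift f hf (c i s) = f i s :=
  FM.lift_of (fun p : ℕ × ℕ => f p.1 p.2) (i, s)

theorem GG.hom_ext {K : Type} [Group K] {f g : GG →* K} (h : ∀ i s, f (c i s) = g (c i s)) :
    f = g := by
  have : f.comp prj = g.comp prj := FM.hom_ext (fun a => h a.1 a.2)
  ext x
  obtain ⟨y, rfl⟩ := prj_surjective x
  exact DFunLike.congr_fun this y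

instance : Countable GG := by
  have : Countable (FreeGroup (ℕ × ℕ)) := inferInstanceAs (Countable (Quot _))
  have : Countable (FM (ℕ × ℕ)) := (QuotientGroup.mk'_surjective _).countable
  exact prj_surjective.countable

theorem alp_comm {K : Type} [CommGroup K] (i : ℕ) (h : ℕ → K) (s : ℕ) : alp i h s = h s := by
  have h1 : ∀ n : DA K, val n = 1 := by
    intro n
    have := val_mem n
    rw [commutator_eq_bot (G := K)] at this
    exact Subgroup.mem_bot.1 this
  rw [alp, h1, one_mul]

/-- homomorphisms to commutative groups -/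
noncomputable def toComm {K : Type} [CommGroup K] (f : ℕ → K) : GG →* K :=
  GG.lift (fun _ s => f s) (fun i s => (alp_comm i f s).symm)

@[simp] theorem toComm_c {K : Type} [CommGroup K] (f : ℕ → K) (i s : ℕ) :
    toComm f (c i s) = f s := GG.lift_c _ _ i s

theorem not_fg : ¬ Group.FG GG := by
  rintro ⟨S, hS⟩
  let f : GG →* Multiplicative (ℕ →₀ ℤ) :=
    toComm (fun s => Multiplicative.ofAdd (Finsupp.single s (1 : ℤ)))
  -- a letter outside the supports
  let T : Finset ℕ := S.sup (fun g => (Multiplicative.toAdd (f g)).support)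
  obtain ⟨s, hs⟩ := Infinite.exists_notMem_finset T
  let N : Subgroup GG :=
    { carrier := {g | (Multiplicative.toAdd (f g)) s = 0}
      one_mem' := by simp
      mul_mem' := by
        intro a b ha hb
        simp only [Set.mem_ofPred_eq, map_mul, toAdd_mul, Finsupp.add_apply] at *
        rw [ha, hb, add_zero]
      inv_mem' := by
        intro a ha
        simp only [Set.mem_ofPred_eq, map_inv, toAdd_inv, Finsupp.neg_apply] at *
        rw [ha, neg_zero] }
  have hN : (⊤ : Subgroup GG) ≤ N := by
    rw [← hS, Subgroup.closure_le]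
    intro g hg
    show (Multiplicative.toAdd (f g)) s = 0
    by_contra hne
    apply hs
    have h1 : s ∈ (Multiplicative.toAdd (f g)).support := Finsupp.mem_support_iff.2 hne
    exact (Finset.le_sup (f := fun g => (Multiplicative.toAdd (f g)).support) hg) h1
  have h2 : c 0 s ∈ N := hN (Subgroup.mem_top _)
  have h3 : (Multiplicative.toAdd (f (c 0 s))) s = 0 := h2
  simp only [f, toComm_c, toAdd_ofAdd, Finsupp.single_eq_same] at h3
  exact one_ne_zero h3

theorem of_val {H : Type} [Group H] (n : DA H) : Abelianization.of (val n) = 1 := by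
  have h := val_mem n
  rw [← Abelianization.ker_of] at h
  exact h

theorem alp_ab {H : Type} [Group H] [IsMetab H] (i : ℕ) (h : ℕ → H) (s : ℕ) :
    Abelianization.of (alp i h s) = Abelianization.of (h s) := by
  rw [alp, map_mul, of_val, one_mul]

theorem mapD_surjective {H K : Type} [Group H] [Group K] [IsMetab H] [IsMetab K] (f : H →* K)
    (hf : Function.Surjective f) : Function.Surjective (mapD f) := by
  intro n
  have h := val_mem n
  rw [← derivedSeries_one, ← map_derivedSeries_eq hf, derivedSeries_one] at h
  obtain ⟨x, hx, hx2⟩ := Subgroup.mem_map.1 h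
  exact ⟨mkD x hx, val_injective hx2⟩

theorem kap_shift {H : Type} [Group H] [IsMetab H] (i : ℕ) (h l : ℕ → H) (h0 : ℕ → H) (d : DA H)
    (hh : ∀ s, Abelianization.of (h s) = Abelianization.of (h0 s))
    (hl : ∀ s < 2 * i + 5, l s = val (act h0 (mP (i + 1) s) d) * h s)
    (hab : ∀ s, Abelianization.of (l s) = Abelianization.of (h0 s)) :
    kap i l = kap i h + act h0 (X 1 * (2 * X (2 * i + 5))) d := by
  have e1 : act l = act h0 := act_congr hab
  have e2 : act h = act h0 := act_congr hh
  have h1 : l 1 = h 1 := by
    rw [hl 1 (by omega), mP_one, map_zero, LinearMap.zero_apply, val_zeroC, one_mul]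
  unfold kap
  rw [e1, e2, h1, ← key, Finset.mul_sum, map_sum, LinearMap.sum_apply, ← Finset.sum_add_distrib]
  refine Finset.sum_congr rfl fun s hs => ?_
  rw [hl s (Finset.mem_range.1 hs), cm_mul, ← act_X h, e2, map_add,
    ← Module.End.mul_apply, ← Module.End.mul_apply, ← map_mul, ← map_mul]
  congr 3
  ring

theorem projective {H K : Type} [Group H] [Group K] [IsMetab H] [IsMetab K] (π : H →* K)
    (hπ : Function.Surjective π) (g : GG →* K) : ∃ h : GG →* H, π.comp h = g := by
  -- the data in `K`
  let f : ℕ → ℕ → K := fun i s => g (c i s)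
  have f_rel : ∀ i s, f i s = alp i (f (i + 1)) s := by
    intro i s
    show g (c i s) = _
    rw [c_rel, map_alp]
  have f_ab : ∀ i s, Abelianization.of (f i s) = Abelianization.of (f 0 s) := by
    intro i s
    induction i with
    | zero => rfl
    | succ i ih => rw [← ih, f_rel i s, alp_ab]
  have f_act : ∀ i, act (f i) = act (f 0) := fun i => act_congr (f_ab i)
  choose h0 hh0 using fun s => hπ (f 0 s)
  choose n hn using fun i => mapD_surjective π hπ (kap i (f (i + 1)))
  let hh : ℕ → ℕ → H := fun i => Nat.rec h0 (fun i hi s => val (-act h0 (mP i s) (n i)) * hi s) i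
  have hh_zero : hh 0 = h0 := rfl
  have hh_succ : ∀ i s, hh (i + 1) s = val (-act h0 (mP i s) (n i)) * hh i s := fun i s => rfl
  have hh_ab : ∀ i s, Abelianization.of (hh i s) = Abelianization.of (h0 s) := by
    intro i s
    induction i with
    | zero => rfl
    | succ i ih => rw [← ih, hh_succ, map_mul, of_val, one_mul]
  have pi_act : act (fun s => π (h0 s)) = act (f 0) := by
    congr 1
    funext s
    exact hh0 s
  have hh_pi : ∀ i s, π (hh i s) = f i s := by
    intro i s
    induction i with
    | zero => exact hh0 s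
    | succ i ih =>
      rw [hh_succ, map_mul, ih, ← val_mapD, map_neg, mapD_act, hn, f_rel i s, pi_act, alp,
        f_act (i + 1), ← mul_assoc, ← val_addC, neg_add_cancel, val_zeroC, one_mul]
  let d : ℕ → DA H := fun i => kap i (hh (i + 1)) - n i
  have d_pi : ∀ i, mapD π (d i) = 0 := by
    intro i
    show mapD π (kap i (hh (i + 1)) - n i) = 0
    rw [map_sub, mapD_kap, hn]
    simp only [hh_pi]
    exact sub_self _
  let lev : ℕ → ℕ → ℕ := fun i s => max i ((s - 1) / 2)
  let lam : ℕ → ℕ → H := fun i s =>
    val (act h0 (mP (lev i s) s) (d (lev i s))) * hh (lev i s) s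
  have lam_ab : ∀ i s, Abelianization.of (lam i s) = Abelianization.of (h0 s) := by
    intro i s
    show Abelianization.of (val (act h0 (mP (lev i s) s) (d (lev i s))) * hh (lev i s) s) = _
    rw [map_mul, of_val, one_mul, hh_ab]
  have lam_lt : ∀ i s, s < 2 * i + 3 → lam i s = val (act h0 (mP i s) (d i)) * hh i s := by
    intro i s hs
    have : lev i s = i := by
      show max i ((s - 1) / 2) = i
      omega
    show val (act h0 (mP (lev i s) s) (d (lev i s))) * hh (lev i s) s = _
    rw [this]
  have lam_rel : ∀ i s, lam i s = alp i (lam (i + 1)) s := by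
    intro i s
    by_cases hs : 2 * i + 3 ≤ s
    · rw [alp_eq hs]
      have : lev i s = lev (i + 1) s := by
        show max i ((s - 1) / 2) = max (i + 1) ((s - 1) / 2)
        omega
      show val (act h0 (mP (lev i s) s) (d (lev i s))) * hh (lev i s) s =
        val (act h0 (mP (lev (i + 1) s) s) (d (lev (i + 1) s))) * hh (lev (i + 1) s) s
      rw [this]
    · have hs' : s < 2 * i + 3 := by omega
      have hk := kap_shift i (hh (i + 1)) (lam (i + 1)) h0 (d (i + 1)) (hh_ab (i + 1))
        (fun s hs => lam_lt (i + 1) s (by omega)) (lam_ab (i + 1))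
      rw [alp, hk, act_congr (lam_ab (i + 1)), lam_lt (i + 1) s (by omega), lam_lt i s hs',
        hh_succ, ← mul_assoc, ← mul_assoc, ← val_addC, ← val_addC]
      congr 2
      have hd : kap i (hh (i + 1)) = d i + n i := (sub_add_cancel _ _).symm
      rw [hd, mP_succ_lt hs']
      simp only [map_add, map_mul, map_neg, neg_mul, LinearMap.neg_apply, Module.End.mul_apply]
      have hc : ∀ x, act h0 (mP i s) (act h0 (X 1) (act h0 2 (act h0 (X (2 * i + 5)) x))) =
          act h0 (X 1) (act h0 2 (act h0 (X (2 * i + 5)) (act h0 (mP i s) x))) := by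
        intro x
        simp only [← Module.End.mul_apply, ← map_mul]
        congr 2
        ring
      rw [hc]
      abel
  refine ⟨GG.lift lam lam_rel, GG.hom_ext fun i s => ?_⟩
  rw [MonoidHom.comp_apply, GG.lift_c]
  show π (val (act h0 (mP (lev i s) s) (d (lev i s))) * hh (lev i s) s) = f i s
  rw [map_mul, ← val_mapD, mapD_act, d_pi, map_zero, val_zeroC, one_mul, hh_pi]
  -- f (lev i s) s = f i s
  have : ∀ k, 2 * i + 3 + 2 * k ≤ s + 2 → f (i + k) s = f i s := by
    intro k
    induction k with
    | zero => intro _; rfl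
    | succ k ih =>
      intro hk
      rw [← ih (by omega), f_rel (i + k) s, alp_eq (by omega)]
      rfl
  by_cases hle : (s - 1) / 2 ≤ i
  · have : lev i s = i := max_eq_left hle
    rw [this]
  · have h1 : lev i s = i + ((s - 1) / 2 - i) := by
      show max i ((s - 1) / 2) = _
      omega
    rw [h1]
    exact this _ (by omega)

end Pool.Agent.Metab
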