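import Mathlib
import Pool.Agent.Metab.Grp

set_option autoImplicit false

namespace Pool.Agent.Metab

open MvPolynomial

/-- The affine map `x ↦ exp l * x + b`. -/
@[ext] structure Af where
  l : ℝ
  b : ℝ

namespace Af

noncomputable instance : Mul Af := ⟨fun x y => ⟨x.l + y.l, x.b + Real.exp x.l * y.b⟩⟩
instance : One Af := ⟨⟨0, 0⟩⟩
noncomputable instance : Inv Af := ⟨fun x => ⟨-x.l, -(Real.exp (-x.l) * x.b)⟩⟩

@[simp] theorem mul_l (x y : Af) : (x * y).l = x.l + y.l := rfl
@[simp] theorem mul_b (x y : Af) : (x * y).b = x.b + Real.exp x.l * y.b := rfl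
@[simp] theorem one_l : (1 : Af).l = 0 := rfl
@[simp] theorem one_b : (1 : Af).b = 0 := rfl
@[simp] theorem inv_l (x : Af) : (x⁻¹).l = -x.l := rfl
@[simp] theorem inv_b (x : Af) : (x⁻¹).b = -(Real.exp (-x.l) * x.b) := rfl

noncomputable instance : Group Af :=
  Group.ofLeftAxioms
    (fun x y z => by
      ext
      · simp [add_assoc]
      · simp only [mul_b, mul_l, Real.exp_add]
        ring)
    (fun x => by
      ext
      · simp
      · simp)
    (fun x => by
      ext
      · simp
      · simp)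

/-- the linear part -/
def lHom : Af →* Multiplicative ℝ where
  toFun x := Multiplicative.ofAdd x.l
  map_one' := rfl
  map_mul' _ _ := rfl

theorem l_of_mem {x : Af} (hx : x ∈ commutator Af) : x.l = 0 := by
  have h : commutator Af ≤ lHom.ker := Abelianization.commutator_subset_ker lHom
  exact congrArg Multiplicative.toAdd (MonoidHom.mem_ker.1 (h hx))

instance : IsMetab Af := ⟨fun x y hx hy => by
  have h1 := l_of_mem hx
  have h2 := l_of_mem hy
  ext
  · simp [h1, h2]
  · simp [h1, h2, add_comm]⟩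

/-- translation part on the derived group -/
noncomputable def tr : DA Af →+ ℝ where
  toFun n := (val n).b
  map_zero' := rfl
  map_add' a b := by
    rw [val_addC, mul_b, l_of_mem (val_mem a), Real.exp_zero, one_mul]

theorem tr_apply (n : DA Af) : tr n = (val n).b := rfl

theorem tr_act (h : ℕ → Af) (p : MvPolynomial ℕ ℤ) :
    ∀ n : DA Af, tr (act h p n) = aeval (fun s => Real.exp (h s).l - 1) p * tr n := by
  induction p using MvPolynomial.induction_on with
  | C a =>
    intro n
    rw [show (C a : MvPolynomial ℕ ℤ) = algebraMap ℤ _ a from rfl, AlgHom.commutes,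
      AlgHom.commutes, Module.algebraMap_end_apply, map_zsmul]
    simp
  | add p q hp hq =>
    intro n
    rw [map_add, map_add, LinearMap.add_apply, map_add, hp, hq, add_mul]
  | mul_X p s hp =>
    intro n
    rw [map_mul, map_mul, Module.End.mul_apply, hp, act_X, aeval_X, mul_assoc]
    congr 1
    rw [map_sub, tr_apply, tr_apply, val_conjD]
    have := l_of_mem (val_mem n)
    simp only [mul_b, mul_l, inv_b, this, add_zero, Real.exp_neg]
    have h2 := Real.exp_ne_zero (h s).l
    field_simp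
    ring

theorem tr_cm (x y : Af) :
    tr (cm x y) = (1 - Real.exp y.l) * x.b + (Real.exp x.l - 1) * y.b := by
  rw [tr_apply, val_cm]
  simp only [mul_b, mul_l, inv_b, inv_l, Real.exp_neg, Real.exp_add]
  have h1 := Real.exp_ne_zero x.l
  have h2 := Real.exp_ne_zero y.l
  field_simp
  ring

theorem tr_kap (i : ℕ) (h : ℕ → Af) :
    tr (kap i h) = ∑ r ∈ Finset.range (2 * i + 5), aeval (fun s => Real.exp (h s).l - 1) (kP i r) *
      ((1 - Real.exp (h r).l) * (h 1).b + (Real.exp (h 1).l - 1) * (h r).b) := by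
  unfold kap
  rw [map_sum]
  refine Finset.sum_congr rfl fun s _ => ?_
  rw [tr_act, tr_cm]

theorem alp_l (i : ℕ) (h : ℕ → Af) (s : ℕ) : (alp i h s).l = (h s).l := by
  rw [alp, mul_l, l_of_mem (val_mem _), zero_add]

theorem alp_b (i : ℕ) (h : ℕ → Af) (s : ℕ) :
    (alp i h s).b = aeval (fun s => Real.exp (h s).l - 1) (mP i s) * tr (kap i h) + (h s).b := by
  rw [alp, mul_b, l_of_mem (val_mem _), Real.exp_zero, one_mul, ← tr_apply, tr_act]

end Af

theorem FM.induction {α : Type} {P : FM α → Prop} (one : P 1) (of : ∀ a, P (FM.of a))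
    (inv : ∀ x, P x → P x⁻¹) (mul : ∀ x y, P x → P y → P (x * y)) (x : FM α) : P x := by
  obtain ⟨w, rfl⟩ := QuotientGroup.mk'_surjective _ x
  induction w using FreeGroup.induction_on with
  | C1 => rw [map_one]; exact one
  | of a => exact of a
  | inv_of a ih => rw [map_inv]; exact inv _ ih
  | mul x y hx hy => rw [map_mul]; exact mul _ _ hx hy

theorem GG.induction {P : GG → Prop} (one : P 1) (of : ∀ i s, P (c i s))
    (inv : ∀ x, P x → P x⁻¹) (mul : ∀ x y, P x → P y → P (x * y)) (x : GG) : P x := by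
  obtain ⟨w, rfl⟩ := prj_surjective x
  induction w using FM.induction with
  | one => rw [map_one]; exact one
  | of a => exact of a.1 a.2
  | inv a ih => rw [map_inv]; exact inv _ ih
  | mul x y hx hy => rw [map_mul]; exact mul _ _ hx hy

/-- the affine representation of the free metabelian group -/
noncomputable def aff (l y : ℕ → ℝ) : FM ℕ →* Af := FM.lift (fun s => ⟨l s, y s⟩)

@[simp] theorem aff_of (l y : ℕ → ℝ) (s : ℕ) : aff l y (FM.of s) = ⟨l s, y s⟩ :=
  FM.lift_of _ _

/-- log of the character -/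
noncomputable def LL (l : ℕ → ℝ) (v : FM ℕ) : ℝ := (aff l 0 v).l

theorem aff_l (l y : ℕ → ℝ) (v : FM ℕ) : (aff l y v).l = LL l v := by
  induction v using FM.induction with
  | one => simp [LL]
  | of a => simp [LL]
  | inv x ih => simp only [LL, map_inv, Af.inv_l] at *; rw [ih]
  | mul x y hx hy => simp only [LL, map_mul, Af.mul_l] at *; rw [hx, hy]

@[simp] theorem LL_one (l : ℕ → ℝ) : LL l 1 = 0 := by simp [LL]
@[simp] theorem LL_of (l : ℕ → ℝ) (s : ℕ) : LL l (FM.of s) = l s := by simp [LL]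
@[simp] theorem LL_inv (l : ℕ → ℝ) (v : FM ℕ) : LL l v⁻¹ = - LL l v := by simp [LL]
@[simp] theorem LL_mul (l : ℕ → ℝ) (v w : FM ℕ) : LL l (v * w) = LL l v + LL l w := by simp [LL]

theorem LL_add (l l' : ℕ → ℝ) (v : FM ℕ) : LL (l + l') v = LL l v + LL l' v := by
  induction v using FM.induction with
  | one => simp
  | of a => simp
  | inv x ih => rw [LL_inv, LL_inv, LL_inv, ih]; ring
  | mul x y hx hy => rw [LL_mul, LL_mul, LL_mul, hx, hy]; ring

theorem LL_smul (a : ℝ) (l : ℕ → ℝ) (v : FM ℕ) : LL (a • l) v = a * LL l v := by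
  induction v using FM.induction with
  | one => simp
  | of a => simp
  | inv x ih => rw [LL_inv, LL_inv, ih]; ring
  | mul x y hx hy => rw [LL_mul, LL_mul, hx, hy]; ring

/-- translation part -/
noncomputable def TT (l y : ℕ → ℝ) (v : FM ℕ) : ℝ := (aff l y v).b

@[simp] theorem TT_one (l y : ℕ → ℝ) : TT l y 1 = 0 := by simp [TT]
@[simp] theorem TT_of (l y : ℕ → ℝ) (s : ℕ) : TT l y (FM.of s) = y s := by simp [TT]
theorem TT_inv (l y : ℕ → ℝ) (v : FM ℕ) : TT l y v⁻¹ = -(Real.exp (- LL l v) * TT l y v) := by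
  simp only [TT, map_inv, Af.inv_b, aff_l]
theorem TT_mul (l y : ℕ → ℝ) (v w : FM ℕ) :
    TT l y (v * w) = TT l y v + Real.exp (LL l v) * TT l y w := by
  simp only [TT, map_mul, Af.mul_b, aff_l]

theorem TT_add (l y y' : ℕ → ℝ) (v : FM ℕ) : TT l (y + y') v = TT l y v + TT l y' v := by
  induction v using FM.induction with
  | one => simp
  | of a => simp
  | inv x ih => rw [TT_inv, TT_inv, TT_inv, ih]; ring
  | mul x y hx hy => rw [TT_mul, TT_mul, TT_mul, hx, hy]; ring

theorem TT_smul (a : ℝ) (l y : ℕ → ℝ) (v : FM ℕ) : TT l (a • y) v = a * TT l y v := by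
  induction v using FM.induction with
  | one => simp
  | of a => simp
  | inv x ih => rw [TT_inv, TT_inv, ih]; ring
  | mul x y hx hy => rw [TT_mul, TT_mul, hx, hy]; ring

theorem TT_zero (l : ℕ → ℝ) (v : FM ℕ) : TT l 0 v = 0 := by
  have := TT_smul 0 l 0 v
  rwa [zero_smul, zero_mul] at this

theorem TT_sum {ι : Type*} (S : Finset ι) (l : ℕ → ℝ) (y : ι → ℕ → ℝ) (v : FM ℕ) :
    TT l (∑ a ∈ S, y a) v = ∑ a ∈ S, TT l (y a) v := by
  classical
  induction S using Finset.induction_on with
  | empty => simp [TT_zero]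
  | insert a S ha ih => rw [Finset.sum_insert ha, Finset.sum_insert ha, TT_add, ih]

theorem TT_fund (l : ℕ → ℝ) (v : FM ℕ) :
    TT l (fun s => Real.exp (l s) - 1) v = Real.exp (LL l v) - 1 := by
  induction v using FM.induction with
  | one => simp
  | of a => simp
  | inv x ih =>
    rw [TT_inv, ih, LL_inv]
    have : Real.exp (-LL l x) * Real.exp (LL l x) = 1 := by
      rw [← Real.exp_add, neg_add_cancel, Real.exp_zero]
    linear_combination -this
  | mul x y hx hy => rw [TT_mul, hx, hy, LL_mul, Real.exp_add]; ring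

theorem LL_cont {X : Type*} [TopologicalSpace X] (l : X → ℕ → ℝ)
    (hl : ∀ s, Continuous fun x => l x s) (v : FM ℕ) : Continuous fun x => LL (l x) v := by
  induction v using FM.induction with
  | one => simp only [LL_one]; exact continuous_const
  | of a => simp only [LL_of]; exact hl a
  | inv x ih => simp only [LL_inv]; exact ih.neg
  | mul x y hx hy => simp only [LL_mul]; exact hx.add hy

theorem TT_cont {X : Type*} [TopologicalSpace X] (l : X → ℕ → ℝ)
    (hl : ∀ s, Continuous fun x => l x s) (y : ℕ → ℝ) (v : FM ℕ) :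
    Continuous fun x => TT (l x) y v := by
  induction v using FM.induction with
  | one => simp only [TT_one]; exact continuous_const
  | of a => simp only [TT_of]; exact continuous_const
  | inv x ih =>
    simp only [TT_inv]
    exact (((Real.continuous_exp.comp (LL_cont l hl x).neg)).mul ih).neg
  | mul x y hx hy =>
    simp only [TT_mul]
    exact hx.add ((Real.continuous_exp.comp (LL_cont l hl x)).mul hy)

/-- words whose Fox derivative is supported on the first `2 j + 3` letters -/
def Sup (j : ℕ) : Set (FM ℕ) :=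
  {v | ∀ l y y' : ℕ → ℝ, (∀ s < 2 * j + 3, y s = y' s) → TT l y v = TT l y' v}

theorem one_mem_Sup (j : ℕ) : (1 : FM ℕ) ∈ Sup j := fun l y y' _ => by rw [TT_one, TT_one]

theorem of_mem_Sup {j s : ℕ} (h : s < 2 * j + 3) : FM.of s ∈ Sup j := fun l y y' hy => by
  rw [TT_of, TT_of, hy s h]

theorem inv_mem_Sup {j : ℕ} {v : FM ℕ} (h : v ∈ Sup j) : v⁻¹ ∈ Sup j := fun l y y' hy => by
  rw [TT_inv, TT_inv, h l y y' hy]

theorem mul_mem_Sup {j : ℕ} {v w : FM ℕ} (h : v ∈ Sup j) (hw : w ∈ Sup j) : v * w ∈ Sup j :=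
  fun l y y' hy => by rw [TT_mul, TT_mul, h l y y' hy, hw l y y' hy]

/-- transition map -/
noncomputable def theta (j : ℕ) : FM ℕ →* FM ℕ := FM.lift (alp j FM.of)

/-- level `j` words -/
noncomputable def lev (j : ℕ) : FM ℕ →* GG := FM.lift (c j)

theorem lev_theta (j : ℕ) (v : FM ℕ) : lev (j + 1) (theta j v) = lev j v := by
  have : (lev (j + 1)).comp (theta j) = lev j := by
    apply FM.hom_ext
    intro s
    rw [MonoidHom.comp_apply, theta, FM.lift_of, map_alp, lev, lev, FM.lift_of, c_rel]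
    simp only [FM.lift_of]
  exact DFunLike.congr_fun this v

theorem aff_theta (l y : ℕ → ℝ) (j : ℕ) (v : FM ℕ) :
    aff l y (theta j v) = aff l (fun s => (alp j (fun r => (⟨l r, y r⟩ : Af)) s).b) v := by
  have : (aff l y).comp (theta j) = aff l (fun s => (alp j (fun r => (⟨l r, y r⟩ : Af)) s).b) := by
    apply FM.hom_ext
    intro s
    rw [MonoidHom.comp_apply, theta, FM.lift_of, map_alp, aff_of]
    simp only [aff_of]
    ext
    · rw [Af.alp_l]
    · rfl
  exact DFunLike.congr_fun this v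

theorem theta_mem_Sup {j : ℕ} {v : FM ℕ} (h : v ∈ Sup j) : theta j v ∈ Sup (j + 1) := by
  intro l y y' hy
  unfold TT
  rw [aff_theta, aff_theta]
  apply h
  intro s hs
  rw [Af.alp_b, Af.alp_b, Af.tr_kap, Af.tr_kap]
  have h1 : y s = y' s := hy s (by omega)
  have h2 : y 1 = y' 1 := hy 1 (by omega)
  simp only [h1, h2]
  congr 2
  refine Finset.sum_congr rfl fun r hr => ?_
  rw [hy r (by have := Finset.mem_range.1 hr; omega)]

theorem raise {j : ℕ} {v : FM ℕ} (h : v ∈ Sup j) (k : ℕ) :
    ∃ v' ∈ Sup (j + k), lev (j + k) v' = lev j v := by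
  induction k with
  | zero => exact ⟨v, h, rfl⟩
  | succ k ih =>
    obtain ⟨v', h1, h2⟩ := ih
    exact ⟨theta (j + k) v', theta_mem_Sup h1, by rw [← h2]; exact lev_theta _ _⟩

theorem exists_rep (g : GG) : ∃ j, ∃ v ∈ Sup j, lev j v = g := by
  induction g using GG.induction with
  | one => exact ⟨0, 1, one_mem_Sup 0, map_one _⟩
  | of i s =>
    have h : ∀ k, 2 * i + 3 + 2 * k ≤ s + 2 → c (i + k) s = c i s := by
      intro k
      induction k with
      | zero => intro _; rfl
      | succ k ih =>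
        intro hk
        rw [← ih (by omega), c_rel (i + k) s, alp_eq (by omega)]
        rfl
    by_cases hle : (s - 1) / 2 ≤ i
    · exact ⟨i, FM.of s, of_mem_Sup (by omega), FM.lift_of _ _⟩
    · have h1 := h ((s - 1) / 2 - i) (by omega)
      exact ⟨i + ((s - 1) / 2 - i), FM.of s, of_mem_Sup (by omega), by
        rw [lev, FM.lift_of, h1]⟩
  | inv x ih =>
    obtain ⟨j, v, hv, rfl⟩ := ih
    exact ⟨j, v⁻¹, inv_mem_Sup hv, map_inv _ _⟩
  | mul x y hx hy =>
    obtain ⟨j, v, hv, rfl⟩ := hx
    obtain ⟨j', v', hv', rfl⟩ := hy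
    obtain ⟨w, hw, hw2⟩ := raise hv j'
    obtain ⟨w', hw', hw2'⟩ := raise hv' j
    rw [add_comm j' j] at hw' hw2'
    exact ⟨j + j', w * w', mul_mem_Sup hw hw', by rw [map_mul, hw2, hw2']⟩

end Pool.Agent.Metab
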