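import Mathlib
import Pool.Agent.Metab.Aff

set_option autoImplicit false

namespace Pool.Agent.Metab

open MvPolynomial
open scoped ContDiff

/-- value of `m_j(s)` at the character `exp l` -/
noncomputable def mv (l : ℕ → ℝ) (j s : ℕ) : ℝ := aeval (fun s => Real.exp (l s) - 1) (mP j s)

theorem mv_one (l : ℕ → ℝ) (j : ℕ) : mv l j 1 = 0 := by rw [mv, mP_one, map_zero]

theorem mv_big (l : ℕ → ℝ) {j s : ℕ} (h : 2 * j + 3 ≤ s) : mv l j s = 0 := by
  rw [mv, mP_eq_zero h, map_zero]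

theorem trans_formula {j : ℕ} (v : FM ℕ) (l : ℕ → ℝ) (hl1 : Real.exp (l 1) = 2)
    (h4 : l (2 * j + 4) = 0) (h5 : l (2 * j + 5) = 0) (hL : LL l v = 0) (Φ : GG →* Af)
    (hΦ : ∀ i s, (Φ (c i s)).l = l s) :
    ∃ w : ℕ → ℝ, w 1 = 0 ∧ (Φ (lev j v)).b =
      TT l w v - 4 * (∑ r ∈ Finset.range (2 * j + 3), mv l j r * w r) * TT l (mv l j) v := by
  let y : ℕ → ℕ → ℝ := fun i s => (Φ (c i s)).b
  let w : ℕ → ℝ := fun s => y (j + 1) s - (Real.exp (l s) - 1) * y (j + 1) 1
  refine ⟨w, ?_, ?_⟩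
  · show y (j + 1) 1 - (Real.exp (l 1) - 1) * y (j + 1) 1 = 0
    rw [hl1]; ring
  have h1 : (Φ (lev j v)).b = TT l (y j) v := by
    have : Φ.comp (lev j) = aff l (y j) := by
      apply FM.hom_ext
      intro s
      rw [MonoidHom.comp_apply, lev, FM.lift_of, aff_of]
      ext
      · exact hΦ j s
      · rfl
    exact congrArg Af.b (DFunLike.congr_fun this v)
  have hy : ∀ s, y j s = y (j + 1) s -
      4 * (∑ r ∈ Finset.range (2 * j + 3), mv l j r * w r) * mv l j s := by
    intro s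
    have e1 : Φ (c j s) = alp j (fun r => Φ (c (j + 1) r)) s := by
      rw [c_rel j s, map_alp]
    have e2 : y j s = (alp j (fun r => Φ (c (j + 1) r)) s).b := congrArg Af.b e1
    rw [e2, Af.alp_b, Af.tr_kap]
    simp only [hΦ]
    rw [hl1, Finset.sum_range_succ, Finset.sum_range_succ]
    have k3 : aeval (fun s => Real.exp (l s) - 1) (kP j (2 * j + 3)) = 0 := by
      rw [kP, if_neg (by omega), if_pos rfl, map_mul, aeval_X, h4, Real.exp_zero, sub_self,
        mul_zero]
    have k4 : aeval (fun s => Real.exp (l s) - 1) (kP j (2 * j + 4)) = 0 := by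
      rw [kP, if_neg (by omega), if_neg (by omega), if_pos rfl, map_mul, aeval_X, h5,
        Real.exp_zero, sub_self, mul_zero]
    rw [k3, k4, zero_mul, zero_mul, add_zero, add_zero]
    have k5 : ∑ r ∈ Finset.range (2 * j + 3), aeval (fun s => Real.exp (l s) - 1) (kP j r) *
        ((1 - Real.exp (l r)) * (Φ (c (j + 1) 1)).b + (2 - 1) * (Φ (c (j + 1) r)).b) =
        -4 * ∑ r ∈ Finset.range (2 * j + 3), mv l j r * w r := by
      rw [Finset.mul_sum]
      refine Finset.sum_congr rfl fun r hr => ?_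
      rw [kP, if_pos (Finset.mem_range.1 hr), map_mul, map_neg, map_ofNat]
      show -4 * mv l j r * ((1 - Real.exp (l r)) * y (j + 1) 1 + (2 - 1) * y (j + 1) r) =
        -4 * (mv l j r * (y (j + 1) r - (Real.exp (l r) - 1) * y (j + 1) 1))
      ring
    rw [k5]
    show mv l j s * _ + y (j + 1) s = _
    ring
  rw [h1]
  have h2 : y j = w + (y (j + 1) 1) • (fun s => Real.exp (l s) - 1) +
      (-4 * (∑ r ∈ Finset.range (2 * j + 3), mv l j r * w r)) • mv l j := by
    funext s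
    rw [hy s]
    show _ = (y (j + 1) s - (Real.exp (l s) - 1) * y (j + 1) 1) +
      y (j + 1) 1 * (Real.exp (l s) - 1) +
      (-4 * (∑ r ∈ Finset.range (2 * j + 3), mv l j r * w r)) * mv l j s
    ring
  rw [h2, TT_add, TT_add, TT_smul, TT_smul, TT_fund, hL, Real.exp_zero]
  ring

theorem TT_expand {j : ℕ} {v : FM ℕ} (hv : v ∈ Sup j) (l w : ℕ → ℝ) :
    TT l w v = ∑ s ∈ Finset.range (2 * j + 3), w s * TT l (Pi.single s 1) v := by
  have h : TT l w v = TT l (∑ s ∈ Finset.range (2 * j + 3), w s • Pi.single s (1 : ℝ)) v := by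
    apply hv
    intro s hs
    rw [Finset.sum_apply]
    rw [Finset.sum_eq_single s]
    · simp
    · intro b _ hb
      simp [hb.symm]
    · intro h
      exact absurd (Finset.mem_range.2 hs) h
  rw [h, TT_sum]
  simp only [TT_smul]

/-- reindexing sums over `s < 2 j + 3`, `s ≠ 1`. -/
theorem sum_comp {ι : Type} [Fintype ι] {j : ℕ} (comp : ι → ℕ) (hc : Function.Injective comp)
    (hr : Set.range comp = {s | s < 2 * j + 3 ∧ s ≠ 1}) (f : ℕ → ℝ) (hf : f 1 = 0) :
    ∑ s ∈ Finset.range (2 * j + 3), f s = ∑ a, f (comp a) := by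
  classical
  have h1 : ∑ a, f (comp a) = ∑ s ∈ Finset.univ.image comp, f s := by
    rw [Finset.sum_image]
    intro a _ b _ hab
    exact hc hab
  rw [h1]
  symm
  apply Finset.sum_subset
  · intro s hs
    obtain ⟨a, _, rfl⟩ := Finset.mem_image.1 hs
    have : comp a ∈ Set.range comp := ⟨a, rfl⟩
    rw [hr] at this
    exact Finset.mem_range.2 this.1
  · intro s hs hs2
    by_cases h : s = 1
    · rw [h, hf]
    · exfalso
      apply hs2
      have : s ∈ Set.range comp := by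
        rw [hr]; exact ⟨Finset.mem_range.1 hs, h⟩
      obtain ⟨a, rfl⟩ := this
      exact Finset.mem_image_of_mem _ (Finset.mem_univ _)

/-- The statement of the obstruction lemma. -/
def ObstructionLemma : Prop :=
  ∀ (ι : Type) (_ : Fintype ι) (_ : DecidableEq ι) (μ V : (ι → ℝ) → (ι → ℝ)) (c : ℝ),
    0 < c → ContDiff ℝ ∞ μ → Continuous V → IsCompact {x | μ x ⬝ᵥ μ x ≤ c} →
    (∀ x, 0 ≤ (fderiv ℝ μ x).det) →
    (∀ ε > 0, ∃ x, μ x ⬝ᵥ μ x < ε ∧ 0 < (fderiv ℝ μ x).det) →
    (∀ x, μ x ⬝ᵥ μ x = c → V x ⬝ᵥ μ x = 0) →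
    ∃ x, μ x ⬝ᵥ μ x ≤ c ∧ V x = 0

/-- The statement about the real maps. -/
def MuLemma : Prop :=
  ∀ j : ℕ, ∃ (ι : Type) (_ : Fintype ι) (_ : DecidableEq ι) (comp var : ι → ℕ)
    (μ : (ι → ℝ) → (ι → ℝ)),
    Function.Injective comp ∧ Set.range comp = {s | s < 2 * j + 3 ∧ s ≠ 1} ∧
    Function.Injective var ∧ Set.range var = {s | 2 ≤ s ∧ s ≤ 2 * j + 3} ∧
    (∀ X : ℕ → ℝ, X 1 = 1 → ∀ a, aeval X (mP j (comp a)) = μ (fun b => X (var b)) a) ∧
    ContDiff ℝ ∞ μ ∧ (∀ x, 0 ≤ (fderiv ℝ μ x).det) ∧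
    (∀ ε > 0, ∃ x, μ x ⬝ᵥ μ x < ε ∧ 0 < (fderiv ℝ μ x).det) ∧
    (∀ x, 4 * (μ x ⬝ᵥ μ x) ≤ 2 → ∀ a, |x a| ≤ 9 / 10)

/-- clamping -/
noncomputable def clamp (z : ℝ) : ℝ := max (-(9 / 10)) (min (9 / 10) z)

theorem clamp_cont : Continuous clamp := by
  unfold clamp
  fun_prop

theorem clamp_pos (z : ℝ) : 0 < 1 + clamp z := by
  have : -(9 / 10) ≤ clamp z := le_max_left _ _
  linarith

theorem clamp_eq {z : ℝ} (h : |z| ≤ 9 / 10) : clamp z = z := by
  rw [abs_le] at h
  unfold clamp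
  rw [min_eq_right h.2, max_eq_right h.1]

open Classical in
/-- the logarithms, apart from the one of the letter `0`. -/
noncomputable def ll0 {ι : Type} (var : ι → ℕ) (x : ι → ℝ) (s : ℕ) : ℝ :=
  if s = 1 then Real.log 2
  else if h : ∃ a, var a = s then Real.log (1 + clamp (x h.choose)) else 0

theorem ll0_cont {ι : Type} (var : ι → ℕ) (s : ℕ) : Continuous fun x => ll0 var x s := by
  unfold ll0
  split_ifs with h1 h2
  · exact continuous_const
  · apply Continuous.log
    · exact continuous_const.add (clamp_cont.comp (continuous_apply _))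
    · intro x
      exact (clamp_pos _).ne'
  · exact continuous_const

/-- the logarithms -/
noncomputable def ll {ι : Type} (var : ι → ℕ) (v : FM ℕ) (x : ι → ℝ) : ℕ → ℝ :=
  ll0 var x + (-(LL (ll0 var x) v) / LL (Pi.single 0 1) v) • Pi.single 0 1

theorem ll_cont {ι : Type} (var : ι → ℕ) (v : FM ℕ) (s : ℕ) :
    Continuous fun x => ll var v x s := by
  unfold ll
  simp only [Pi.add_apply, Pi.smul_apply, smul_eq_mul]
  exact (ll0_cont var s).add ((((LL_cont _ (ll0_cont var) v).neg).div_const _).mul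
    continuous_const)

theorem LL_ll {ι : Type} (var : ι → ℕ) (v : FM ℕ) (hv : LL (Pi.single 0 1) v ≠ 0) (x : ι → ℝ) :
    LL (ll var v x) v = 0 := by
  rw [ll, LL_add, LL_smul, div_mul_cancel₀ _ hv, add_neg_cancel]

theorem ll_ne {ι : Type} (var : ι → ℕ) (v : FM ℕ) (x : ι → ℝ) {s : ℕ} (hs : s ≠ 0) :
    ll var v x s = ll0 var x s := by
  unfold ll
  simp [hs]

theorem main_contradiction (hO : ObstructionLemma) (hM : MuLemma) (j : ℕ) (v : FM ℕ)
    (hv : v ∈ Sup j) (hv0 : LL (Pi.single 0 1) v ≠ 0) :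
    ∃ l : ℕ → ℝ, ∀ Φ : GG →* Af, (∀ i s, (Φ (c i s)).l = l s) → (Φ (lev j v)).b = 0 := by
  classical
  obtain ⟨ι, hF, hD, comp, var, μ, hcomp, hcr, hvar, hvr, hμ, hsm, hdet, hpos, hbd⟩ := hM j
  let l : (ι → ℝ) → ℕ → ℝ := ll var v
  let r : (ι → ℝ) → ι → ℝ := fun x a => TT (l x) (Pi.single (comp a) 1) v
  let V : (ι → ℝ) → ι → ℝ := fun x => r x - (4 * (μ x ⬝ᵥ r x)) • μ x
  have hr : Continuous r := continuous_pi fun a => TT_cont l (ll_cont var v) _ v
  have hμc : Continuous μ := hsm.continuous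
  have hV : Continuous V := by
    have : Continuous fun x => μ x ⬝ᵥ r x := by
      unfold dotProduct
      exact continuous_finsetSum _ fun a _ =>
        ((continuous_apply a).comp hμc).mul ((continuous_apply a).comp hr)
    exact hr.sub ((continuous_const.mul this).smul hμc)
  have hK : IsCompact {x | μ x ⬝ᵥ μ x ≤ (1 / 4 : ℝ)} := by
    apply Metric.isCompact_of_isClosed_isBounded
    · have : Continuous fun x => μ x ⬝ᵥ μ x := by
        unfold dotProduct
        exact continuous_finsetSum _ fun a _ =>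
          ((continuous_apply a).comp hμc).mul ((continuous_apply a).comp hμc)
      exact isClosed_le this continuous_const
    · rw [Metric.isBounded_iff_subset_closedBall (0 : ι → ℝ)]
      refine ⟨9 / 10, fun x hx => ?_⟩
      have hx' : μ x ⬝ᵥ μ x ≤ 1 / 4 := hx
      rw [mem_closedBall_zero_iff, pi_norm_le_iff_of_nonneg (by norm_num)]
      intro a
      rw [Real.norm_eq_abs]
      exact hbd x (by linarith) a
  have htan : ∀ x, μ x ⬝ᵥ μ x = (1 / 4 : ℝ) → V x ⬝ᵥ μ x = 0 := by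
    intro x hx
    show (r x - (4 * (μ x ⬝ᵥ r x)) • μ x) ⬝ᵥ μ x = 0
    rw [sub_dotProduct, smul_dotProduct, hx, dotProduct_comm (r x), smul_eq_mul]
    ring
  obtain ⟨x, hx, hVx⟩ := hO ι hF hD μ V (1 / 4) (by norm_num) hsm hV hK hdet hpos htan
  refine ⟨l x, fun Φ hΦ => ?_⟩
  have hxb : ∀ a, |x a| ≤ 9 / 10 := hbd x (by linarith)
  -- values of `l x`
  have l1 : Real.exp (l x 1) = 2 := by
    show Real.exp (ll var v x 1) = 2
    rw [ll_ne var v x one_ne_zero, ll0, if_pos rfl, Real.exp_log (by norm_num)]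
  have lvar : ∀ a, Real.exp (l x (var a)) - 1 = x a := by
    intro a
    have h2 : 2 ≤ var a := by
      have : var a ∈ Set.range var := ⟨a, rfl⟩
      rw [hvr] at this
      exact this.1
    have hex : ∃ b, var b = var a := ⟨a, rfl⟩
    have hch : hex.choose = a := hvar hex.choose_spec
    show Real.exp (ll var v x (var a)) - 1 = x a
    rw [ll_ne var v x (by omega), ll0, if_neg (by omega), dif_pos hex, hch, clamp_eq (hxb a),
      Real.exp_log]
    · ring
    · have := abs_le.1 (hxb a)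
      linarith
  have lbig : ∀ s, 2 * j + 3 < s → l x s = 0 := by
    intro s hs
    have : ¬ ∃ a, var a = s := by
      rintro ⟨a, ha⟩
      have : var a ∈ Set.range var := ⟨a, rfl⟩
      rw [hvr, ha] at this
      have := this.2
      omega
    show ll var v x s = 0
    rw [ll_ne var v x (by omega), ll0, if_neg (by omega), dif_neg this]
  have hmu : ∀ a, mv (l x) j (comp a) = μ x a := by
    intro a
    rw [mv, hμ (fun s => Real.exp (l x s) - 1) (by rw [l1]; norm_num) a]
    congr 1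
    funext b
    exact lvar b
  obtain ⟨w, hw1, hw⟩ := trans_formula (j := j) v (l x) l1 (lbig _ (by omega)) (lbig _ (by omega))
    (LL_ll var v hv0 x) Φ hΦ
  have e1 : TT (l x) w v = w ∘ comp ⬝ᵥ r x := by
    rw [TT_expand hv, sum_comp comp hcomp hcr _ (by rw [hw1, zero_mul])]
    rfl
  have e2 : TT (l x) (mv (l x) j) v = μ x ⬝ᵥ r x := by
    rw [TT_expand hv, sum_comp comp hcomp hcr _ (by rw [mv_one, zero_mul])]
    unfold dotProduct
    refine Finset.sum_congr rfl fun a _ => ?_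
    rw [hmu]
  have e3 : ∑ s ∈ Finset.range (2 * j + 3), mv (l x) j s * w s = μ x ⬝ᵥ (w ∘ comp) := by
    rw [sum_comp comp hcomp hcr _ (by rw [mv_one, zero_mul])]
    unfold dotProduct
    refine Finset.sum_congr rfl fun a _ => ?_
    rw [hmu]
    rfl
  rw [hw, e1, e2, e3]
  have hr0 : r x = (4 * (μ x ⬝ᵥ r x)) • μ x := sub_eq_zero.1 hVx
  have e4 : w ∘ comp ⬝ᵥ r x = 4 * (μ x ⬝ᵥ r x) * (μ x ⬝ᵥ (w ∘ comp)) := by
    conv_lhs => rw [hr0]
    rw [dotProduct_smul, smul_eq_mul, dotProduct_comm (w ∘ comp)]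
  rw [e4]
  ring

theorem not_free (hO : ObstructionLemma) (hM : MuLemma) : IsEmpty (GG ≃* FM ℕ) := by
  refine ⟨fun φ => ?_⟩
  -- the exponent of the letter `0`
  let ex : GG →* Multiplicative ℝ := toComm (fun s => Multiplicative.ofAdd ((Pi.single 0 1 : ℕ → ℝ) s))
  obtain ⟨k, hk⟩ : ∃ k, ex (φ.symm (FM.of k)) ≠ 1 := by
    by_contra hcon
    push Not at hcon
    have h1 : ex.comp φ.symm.toMonoidHom = 1 := FM.hom_ext (fun k => hcon k)
    have h2 : ex (c 0 0) = 1 := by
      have := DFunLike.congr_fun h1 (φ (c 0 0))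
      simpa using this
    rw [toComm_c] at h2
    have h3 := congrArg Multiplicative.toAdd h2
    simp at h3
  obtain ⟨j, v, hv, hvg⟩ := exists_rep (φ.symm (FM.of k))
  have hLL : ∀ (l : ℕ → ℝ) (u : FM ℕ), LL l u =
      Multiplicative.toAdd (toComm (fun s => Multiplicative.ofAdd (l s)) (lev j u)) := by
    intro l u
    have : Af.lHom.comp (aff l 0) = (toComm (fun s => Multiplicative.ofAdd (l s))).comp (lev j) := by
      apply FM.hom_ext
      intro s
      rw [MonoidHom.comp_apply, MonoidHom.comp_apply, lev, FM.lift_of, toComm_c, aff_of]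
      rfl
    exact congrArg Multiplicative.toAdd (DFunLike.congr_fun this u)
  have hv0 : LL (Pi.single 0 1) v ≠ 0 := by
    rw [hLL, hvg]
    intro h
    exact hk (Multiplicative.toAdd.injective h)
  obtain ⟨l, hl⟩ := main_contradiction hO hM j v hv hv0
  let Φ' : FM ℕ →* Af := FM.lift (fun n => ⟨Multiplicative.toAdd
    (toComm (fun s => Multiplicative.ofAdd (l s)) (φ.symm (FM.of n))), if n = k then 1 else 0⟩)
  let Φ : GG →* Af := Φ'.comp φ.toMonoidHom
  have h1 : Af.lHom.comp Φ = toComm (fun s => Multiplicative.ofAdd (l s)) := by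
    have : Af.lHom.comp Φ' =
        (toComm (fun s => Multiplicative.ofAdd (l s))).comp φ.symm.toMonoidHom := by
      apply FM.hom_ext
      intro n
      rw [MonoidHom.comp_apply, FM.lift_of]
      rfl
    ext g
    have h2 := DFunLike.congr_fun this (φ g)
    simpa [Φ] using h2
  have h2 := hl Φ (fun i s => by
    have := congrArg Multiplicative.toAdd (DFunLike.congr_fun h1 (c i s))
    rw [toComm_c] at this
    exact this)
  rw [hvg] at h2
  have h3 : Φ (φ.symm (FM.of k)) = Φ' (FM.of k) := by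
    show Φ' (φ (φ.symm (FM.of k))) = _
    rw [MulEquiv.apply_symm_apply]
  rw [h3, FM.lift_of] at h2
  simp at h2

end Pool.Agent.Metab
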