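import Mathlib
import Pool.Agent.Metab.Nonfree

set_option autoImplicit false

namespace Pool.Agent.Metab

open MvPolynomial
open scoped ContDiff

section
variable {ι : Type} [Fintype ι] [DecidableEq ι]

/-- the inductive step for the real maps -/
noncomputable def muS (μ : (ι → ℝ) → (ι → ℝ)) (x : ι ⊕ Fin 2 → ℝ) : ι ⊕ Fin 2 → ℝ
  | Sum.inl a => -2 * x (Sum.inr 1) * μ (fun b => x (Sum.inl b)) a
  | Sum.inr 0 => 4 * x (Sum.inr 0) * x (Sum.inr 1)
  | Sum.inr 1 => 1 - 4 * (∑ a, μ (fun b => x (Sum.inl b)) a ^ 2) - 4 * x (Sum.inr 0) ^ 2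

/-- restriction -/
noncomputable def rst : (ι ⊕ Fin 2 → ℝ) →L[ℝ] (ι → ℝ) :=
  ContinuousLinearMap.pi fun b => ContinuousLinearMap.proj (Sum.inl b)

/-- derivative of the inductive step -/
noncomputable def dmuS (m : ι → ℝ) (D : (ι → ℝ) →L[ℝ] (ι → ℝ)) (z1 z2 : ℝ) :
    (ι ⊕ Fin 2 → ℝ) →L[ℝ] (ι ⊕ Fin 2 → ℝ) :=
  ContinuousLinearMap.pi fun a =>
    match a with
    | Sum.inl a => (-2 * z2) • ((ContinuousLinearMap.proj a).comp (D.comp rst)) +
        (-2 * m a) • ContinuousLinearMap.proj (Sum.inr 1)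
    | Sum.inr 0 => (4 * z2) • ContinuousLinearMap.proj (Sum.inr 0) +
        (4 * z1) • ContinuousLinearMap.proj (Sum.inr 1)
    | Sum.inr 1 => - ((8 : ℝ) • ∑ a, m a • ((ContinuousLinearMap.proj a).comp (D.comp rst)) : (ι ⊕ Fin 2 → ℝ) →L[ℝ] ℝ)
        - (8 * z1) • ContinuousLinearMap.proj (Sum.inr 0)

theorem hasFDerivAt_muS {μ : (ι → ℝ) → (ι → ℝ)} {D : (ι → ℝ) →L[ℝ] (ι → ℝ)} {x : ι ⊕ Fin 2 → ℝ}
    (h : HasFDerivAt μ D (fun b => x (Sum.inl b))) :
    HasFDerivAt (muS μ) (dmuS (μ fun b => x (Sum.inl b)) D (x (Sum.inr 0)) (x (Sum.inr 1))) x := by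
  have h1 : HasFDerivAt (fun y : ι ⊕ Fin 2 → ℝ => μ (fun b => y (Sum.inl b))) (D.comp rst) x :=
    HasFDerivAt.comp x h (rst : (ι ⊕ Fin 2 → ℝ) →L[ℝ] (ι → ℝ)).hasFDerivAt
  have h2 : ∀ a, HasFDerivAt (fun y : ι ⊕ Fin 2 → ℝ => μ (fun b => y (Sum.inl b)) a)
      ((ContinuousLinearMap.proj a).comp (D.comp rst)) x := fun a =>
    hasFDerivAt_pi'.1 h1 a
  have h3 : ∀ a, HasFDerivAt (fun y : ι ⊕ Fin 2 → ℝ => y a)
      (ContinuousLinearMap.proj a : (ι ⊕ Fin 2 → ℝ) →L[ℝ] ℝ) x := fun a => hasFDerivAt_apply a x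
  rw [hasFDerivAt_pi']
  rintro (a | a)
  · have := ((h3 (Sum.inr 1)).const_mul (-2)).mul (h2 a)
    refine this.congr_fderiv ?_
    ext v
    simp [dmuS]
    ring
  · fin_cases a
    · have := ((h3 (Sum.inr 0)).const_mul 4).mul (h3 (Sum.inr 1))
      refine this.congr_fderiv ?_
      ext v
      simp [dmuS]
      ring
    · have h4 : HasFDerivAt (fun y : ι ⊕ Fin 2 → ℝ => ∑ a, μ (fun b => y (Sum.inl b)) a ^ 2)
          (∑ a, (2 * μ (fun b => x (Sum.inl b)) a) •
            ((ContinuousLinearMap.proj a).comp (D.comp rst))) x := by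
        refine HasFDerivAt.fun_sum fun a _ => ?_
        have := (h2 a).pow 2
        refine this.congr_fderiv ?_
        ext v
        simp
      have := (((h4.const_mul 4).const_sub 1).sub (((h3 (Sum.inr 0)).pow 2).const_mul 4))
      refine this.congr_fderiv ?_
      ext v
      simp [dmuS, Finset.mul_sum]
      ring_nf

/-- block matrix of the derivative of `Ψ` -/
noncomputable def bm (m : ι → ℝ) (z1 z2 : ℝ) : Matrix (ι ⊕ Fin 2) (ι ⊕ Fin 2) ℝ :=
  Matrix.fromBlocks ((-2 * z2) • 1) (Matrix.of fun a k => if k = 1 then -2 * m a else 0)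
    (Matrix.of fun k b => if k = 1 then -8 * m b else 0)
    !![4 * z2, 4 * z1; -8 * z1, 0]

theorem toMatrix_dmuS (m : ι → ℝ) (D : (ι → ℝ) →L[ℝ] (ι → ℝ)) (z1 z2 : ℝ) :
    LinearMap.toMatrix' (dmuS m D z1 z2 : (ι ⊕ Fin 2 → ℝ) →ₗ[ℝ] (ι ⊕ Fin 2 → ℝ)) =
      bm m z1 z2 * Matrix.fromBlocks (LinearMap.toMatrix' (D : (ι → ℝ) →ₗ[ℝ] (ι → ℝ))) 0 0 1 := by
  have hr1 : ∀ b : ι, (rst (Pi.single (Sum.inl b) 1) : ι → ℝ) = Pi.single b 1 := by
    intro b
    ext a
    simp [rst, Pi.single_apply]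
  have hr2 : ∀ k : Fin 2, (rst (Pi.single (Sum.inr k) 1) : ι → ℝ) = 0 := by
    intro k
    ext a
    simp [rst]
  rw [bm, Matrix.fromBlocks_multiply]
  ext i j
  rcases i with i | i
  · rcases j with j | j
    · rw [LinearMap.toMatrix'_apply]
      simp [dmuS, hr1, LinearMap.toMatrix'_apply, Matrix.smul_apply]
    · rw [LinearMap.toMatrix'_apply]
      fin_cases j <;> simp [dmuS, hr2]
  · rcases j with j | j
    · rw [LinearMap.toMatrix'_apply]
      fin_cases i
      · simp [dmuS, Matrix.mul_apply]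
      · simp [dmuS, hr1, Matrix.mul_apply, LinearMap.toMatrix'_apply, Finset.mul_sum, mul_assoc]
    · rw [LinearMap.toMatrix'_apply]
      fin_cases i <;> fin_cases j <;> simp [dmuS, hr2]

theorem det_dmuS (m : ι → ℝ) (D : (ι → ℝ) →L[ℝ] (ι → ℝ)) (z1 z2 : ℝ) :
    (dmuS m D z1 z2).det = (bm m z1 z2).det * D.det := by
  rw [ContinuousLinearMap.det, ← LinearMap.det_toMatrix', toMatrix_dmuS, Matrix.det_mul,
    Matrix.det_fromBlocks_zero₁₂, Matrix.det_one, mul_one, LinearMap.det_toMatrix']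

theorem det_bm_of_ne (m : ι → ℝ) (z1 : ℝ) {z2 : ℝ} (hz : z2 ≠ 0) :
    (bm m z1 z2).det = (-2 * z2) ^ Fintype.card ι * (32 * (m ⬝ᵥ m + z1 ^ 2)) := by
  have hz2 : -2 * z2 ≠ 0 := mul_ne_zero (by norm_num) hz
  let A : Matrix ι ι ℝ := (-2 * z2) • 1
  let B : Matrix ι ι ℝ := (-2 * z2)⁻¹ • 1
  have hBA : B * A = 1 := by
    simp only [A, B, Matrix.smul_mul, Matrix.one_mul, smul_smul]
    rw [inv_mul_cancel₀ hz2, one_smul]
  have hAB : A * B = 1 := by
    simp only [A, B, Matrix.smul_mul, Matrix.one_mul, smul_smul]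
    rw [mul_inv_cancel₀ hz2, one_smul]
  let _ : Invertible A := ⟨B, hBA, hAB⟩
  have hinv : ⅟A = B := rfl
  have hC : (!![4 * z2, 4 * z1; -8 * z1, 0] - (Matrix.of fun (k : Fin 2) (b : ι) =>
      if k = 1 then -8 * m b else 0) * ⅟A *
      (Matrix.of fun (a : ι) (k : Fin 2) => if k = 1 then -2 * m a else 0)) =
      !![4 * z2, 4 * z1; -8 * z1, 8 * (m ⬝ᵥ m) / z2] := by
    rw [hinv]
    simp only [B, Matrix.mul_smul, Matrix.mul_one, Matrix.smul_mul]
    ext i j
    fin_cases i <;> fin_cases j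
    · simp [Matrix.mul_apply]
    · simp [Matrix.mul_apply]
    · simp [Matrix.mul_apply]
    · simp only [Matrix.sub_apply, Matrix.smul_apply, Matrix.mul_apply, dotProduct]
      simp only [Fin.mk_one, Matrix.of_apply, Matrix.cons_val', Matrix.cons_val_one,
        Matrix.cons_val_fin_one, if_true, smul_eq_mul]
      rw [Finset.mul_sum, Finset.mul_sum, Finset.sum_div, zero_sub, ← Finset.sum_neg_distrib]
      refine Finset.sum_congr rfl fun a _ => ?_
      field_simp
  rw [bm, Matrix.det_fromBlocks₁₁ A, hC, Matrix.det_smul, Matrix.det_one, mul_one,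
    Matrix.det_fin_two]
  congr 1
  simp only [Matrix.of_apply, Matrix.cons_val', Matrix.cons_val_zero, Matrix.cons_val_one,
    Matrix.cons_val_fin_one]
  field_simp
  ring

theorem det_bm_nonneg (hn : Even (Fintype.card ι)) (m : ι → ℝ) (z1 z2 : ℝ) :
    0 ≤ (bm m z1 z2).det := by
  have hne : ∀ z2 : ℝ, z2 ≠ 0 → 0 ≤ (bm m z1 z2).det := by
    intro z hz
    rw [det_bm_of_ne m z1 hz]
    refine mul_nonneg (hn.pow_nonneg _) ?_
    have : 0 ≤ m ⬝ᵥ m := by
      unfold dotProduct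
      exact Finset.sum_nonneg fun a _ => mul_self_nonneg _
    positivity
  have hc : Continuous fun z : ℝ => (bm m z1 z).det := by
    refine Continuous.matrix_det ?_
    unfold bm
    refine Continuous.matrix_fromBlocks ?_ continuous_const continuous_const ?_
    · exact (continuous_const.mul continuous_id).smul continuous_const
    · refine continuous_matrix fun i j => ?_
      fin_cases i <;> fin_cases j <;> simp <;> fun_prop
  by_contra hcon
  push Not at hcon
  have h1 : ∀ᶠ z in nhds z2, (bm m z1 z).det < 0 := hc.continuousAt.eventually_lt_const hcon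
  have h2 : ∀ᶠ z in nhdsWithin z2 {z2}ᶜ, (bm m z1 z).det < 0 := h1.filter_mono nhdsWithin_le_nhds
  by_cases h0 : z2 = 0
  · have h3 : ∀ᶠ z in nhdsWithin z2 {z2}ᶜ, z ≠ z2 := eventually_mem_nhdsWithin
    obtain ⟨z, hz1, hz2⟩ := (h2.and h3).exists
    rw [h0] at hz2
    exact absurd (hne z hz2) (not_le.2 hz1)
  · exact absurd (hne z2 h0) (not_le.2 hcon)

theorem contDiff_muS {μ : (ι → ℝ) → (ι → ℝ)} (h : ContDiff ℝ ∞ μ) : ContDiff ℝ ∞ (muS μ) := by
  have h1 : ContDiff ℝ ∞ (fun y : ι ⊕ Fin 2 → ℝ => μ (fun b => y (Sum.inl b))) :=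
    h.comp (rst : (ι ⊕ Fin 2 → ℝ) →L[ℝ] (ι → ℝ)).contDiff
  have h2 : ∀ a, ContDiff ℝ ∞ (fun y : ι ⊕ Fin 2 → ℝ => μ (fun b => y (Sum.inl b)) a) := fun a =>
    contDiff_pi.1 h1 a
  have h3 : ∀ a : ι ⊕ Fin 2, ContDiff ℝ ∞ (fun y : ι ⊕ Fin 2 → ℝ => y a) := fun a =>
    contDiff_apply ℝ ℝ a
  rw [contDiff_pi]
  rintro (a | a)
  · exact (contDiff_const.mul (h3 _)).mul (h2 a)
  · fin_cases a
    · exact (contDiff_const.mul (h3 _)).mul (h3 _)
    · exact (contDiff_const.sub (contDiff_const.mul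
        (ContDiff.sum fun a _ => (h2 a).pow 2))).sub (contDiff_const.mul ((h3 _).pow 2))

theorem dot_muS (μ : (ι → ℝ) → (ι → ℝ)) (x : ι ⊕ Fin 2 → ℝ) :
    muS μ x ⬝ᵥ muS μ x =
      4 * x (Sum.inr 1) ^ 2 * (μ (fun b => x (Sum.inl b)) ⬝ᵥ μ (fun b => x (Sum.inl b))) +
      16 * x (Sum.inr 0) ^ 2 * x (Sum.inr 1) ^ 2 +
      (1 - 4 * (μ (fun b => x (Sum.inl b)) ⬝ᵥ μ (fun b => x (Sum.inl b)))
        - 4 * x (Sum.inr 0) ^ 2) ^ 2 := by
  have h : ∑ a, μ (fun b => x (Sum.inl b)) a ^ 2 =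
      μ (fun b => x (Sum.inl b)) ⬝ᵥ μ (fun b => x (Sum.inl b)) := by
    unfold dotProduct
    exact Finset.sum_congr rfl fun a _ => sq _
  rw [← h]
  simp only [dotProduct, Fintype.sum_sum_type, Fin.sum_univ_two, muS, Finset.mul_sum]
  rw [add_assoc]
  congr 1
  · exact Finset.sum_congr rfl fun a _ => by ring
  · ring

end

theorem muLemma_aux (j : ℕ) : ∃ (ι : Type) (_ : Fintype ι) (_ : DecidableEq ι) (comp var : ι → ℕ)
    (μ : (ι → ℝ) → (ι → ℝ)), Even (Fintype.card ι) ∧
    Function.Injective comp ∧ Set.range comp = {s | s < 2 * j + 3 ∧ s ≠ 1} ∧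
    Function.Injective var ∧ Set.range var = {s | 2 ≤ s ∧ s ≤ 2 * j + 3} ∧
    (∀ X : ℕ → ℝ, X 1 = 1 → ∀ a, aeval X (mP j (comp a)) = μ (fun b => X (var b)) a) ∧
    ContDiff ℝ ∞ μ ∧ (∀ x, 0 ≤ (fderiv ℝ μ x).det) ∧
    (∀ ε > 0, ∃ x, μ x ⬝ᵥ μ x < ε ∧ 0 < (fderiv ℝ μ x).det) ∧
    (∀ x, 4 * (μ x ⬝ᵥ μ x) ≤ 2 → ∀ a, |x a| ≤ 9 / 10) := by
  induction j with
  | zero =>
    refine ⟨Fin 2, inferInstance, inferInstance, ![0, 2], ![2, 3], id, ?_, ?_, ?_, ?_, ?_, ?_, ?_,
      ?_, ?_, ?_⟩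
    · simp
    · intro a b
      fin_cases a <;> fin_cases b <;> simp
    · ext s
      simp only [Set.mem_range, Fin.exists_fin_two, Matrix.cons_val_zero, Matrix.cons_val_one,
        Set.mem_ofPred_eq]
      omega
    · intro a b
      fin_cases a <;> fin_cases b <;> simp
    · ext s
      simp only [Set.mem_range, Fin.exists_fin_two, Matrix.cons_val_zero, Matrix.cons_val_one,
        Set.mem_ofPred_eq]
      omega
    · intro X hX a
      fin_cases a
      · simp [mP_zero]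
      · simp [mP_zero]
    · exact contDiff_id
    · intro x
      rw [fderiv_id]
      simp [ContinuousLinearMap.det]
    · intro ε hε
      refine ⟨0, ?_, ?_⟩
      · simpa using hε
      · rw [fderiv_id]
        simp [ContinuousLinearMap.det]
    · intro x hx a
      simp only [dotProduct, Fin.sum_univ_two, id] at hx
      rw [abs_le]
      fin_cases a
      · constructor <;> simp only [Fin.zero_eta, Fin.isValue] <;>
          nlinarith [mul_self_nonneg (x 0), mul_self_nonneg (x 1)]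
      · constructor <;> simp only [Fin.mk_one, Fin.isValue] <;>
          nlinarith [mul_self_nonneg (x 0), mul_self_nonneg (x 1)]
  | succ j ih =>
    obtain ⟨ι, hF, hD, comp, var, μ, hev, hcomp, hcr, hvar, hvr, hμ, hsm, hdet, hpos, hbd⟩ := ih
    have hcm : ∀ a, comp a < 2 * j + 3 ∧ comp a ≠ 1 := fun a => by
      have : comp a ∈ Set.range comp := ⟨a, rfl⟩
      rw [hcr] at this
      exact this
    have hvm : ∀ a, 2 ≤ var a ∧ var a ≤ 2 * j + 3 := fun a => by
      have : var a ∈ Set.range var := ⟨a, rfl⟩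
      rw [hvr] at this
      exact this
    have hfd : ∀ x, fderiv ℝ (muS μ) x = dmuS (μ fun b => x (Sum.inl b))
        (fderiv ℝ μ fun b => x (Sum.inl b)) (x (Sum.inr 0)) (x (Sum.inr 1)) := fun x =>
      (hasFDerivAt_muS ((hsm.differentiable (by simp)) _).hasFDerivAt).fderiv
    have hnn : ∀ m : ι → ℝ, 0 ≤ m ⬝ᵥ m := fun m => by
      unfold dotProduct
      exact Finset.sum_nonneg fun a _ => mul_self_nonneg _
    refine ⟨ι ⊕ Fin 2, inferInstance, inferInstance, Sum.elim comp ![2 * j + 3, 2 * j + 4],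
      Sum.elim var ![2 * j + 4, 2 * j + 5], muS μ, ?_, ?_, ?_, ?_, ?_, ?_, ?_, ?_, ?_, ?_⟩
    · rw [Fintype.card_sum, Fintype.card_fin]
      exact hev.add even_two
    · apply Function.Injective.sumElim hcomp
      · intro a b
        fin_cases a <;> fin_cases b <;> simp
      · intro a b
        have := hcm a
        fin_cases b <;> simp <;> omega
    · rw [Set.Sum.elim_range, hcr]
      ext s
      simp only [Set.mem_range, Fin.exists_fin_two, Matrix.cons_val_zero, Matrix.cons_val_one,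
        Set.mem_ofPred_eq, Set.mem_union]
      omega
    · apply Function.Injective.sumElim hvar
      · intro a b
        fin_cases a <;> fin_cases b <;> simp
      · intro a b
        have := hvm a
        fin_cases b <;> simp <;> omega
    · rw [Set.Sum.elim_range, hvr]
      ext s
      simp only [Set.mem_range, Fin.exists_fin_two, Matrix.cons_val_zero, Matrix.cons_val_one,
        Set.mem_ofPred_eq, Set.mem_union]
      omega
    · intro X hX a
      rcases a with a | a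
      · show aeval X (mP (j + 1) (comp a)) = -2 * X (2 * j + 5) * μ (fun b => X (var b)) a
        rw [mP_succ_lt (hcm a).1, map_mul, map_mul, map_neg, map_mul, aeval_X, aeval_X, hμ X hX,
          hX, map_ofNat]
        ring
      · fin_cases a
        · show aeval X (mP (j + 1) (2 * j + 3)) = 4 * X (2 * j + 4) * X (2 * j + 5)
          rw [mP_succ, if_neg (by omega), if_pos rfl, map_mul, map_mul, map_mul, map_mul,
            aeval_X, aeval_X, aeval_X, hX, map_ofNat]
          ring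
        · show aeval X (mP (j + 1) (2 * j + 4)) =
            1 - 4 * (∑ a, μ (fun b => X (var b)) a ^ 2) - 4 * X (2 * j + 4) ^ 2
          rw [mP_succ, if_neg (by omega), if_neg (by omega), if_pos rfl, map_sub, map_sub, map_one,
            map_mul, map_mul, map_mul, map_pow, map_mul, map_sum, aeval_X, aeval_X, hX, map_ofNat,
            map_ofNat]
          have : ∑ s ∈ Finset.range (2 * j + 3), aeval X (mP j s ^ 2) =
              ∑ a, μ (fun b => X (var b)) a ^ 2 := by
            rw [sum_comp comp hcomp hcr (fun s => aeval X (mP j s ^ 2))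
              (by simp [mP_one])]
            refine Finset.sum_congr rfl fun a _ => ?_
            rw [map_pow, hμ X hX]
          rw [this]
          ring
    · exact contDiff_muS hsm
    · intro x
      rw [hfd, det_dmuS]
      exact mul_nonneg (det_bm_nonneg hev _ _ _) (hdet _)
    · intro ε hε
      obtain ⟨x, hx1, hx2⟩ := hpos (1 / 8) (by norm_num)
      have hP := hnn (μ x)
      let P := μ x ⬝ᵥ μ x
      let z1 := Real.sqrt ((1 - 4 * P) / 4)
      let z2 := Real.sqrt ε / 4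
      have hz1 : z1 ^ 2 = (1 - 4 * P) / 4 := Real.sq_sqrt (by
        have : P < 1 / 8 := hx1
        linarith)
      have hz1' : 0 < z1 ^ 2 := by
        rw [hz1]
        have : P < 1 / 8 := hx1
        linarith
      have hz2 : z2 ^ 2 = ε / 16 := by
        show (Real.sqrt ε / 4) ^ 2 = ε / 16
        rw [div_pow, Real.sq_sqrt hε.le]
        norm_num
      have hz2' : 0 < z2 := by
        show 0 < Real.sqrt ε / 4
        have := Real.sqrt_pos.2 hε
        linarith
      refine ⟨Sum.elim x ![z1, z2], ?_, ?_⟩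
      · rw [dot_muS]
        simp only [Sum.elim_inl, Sum.elim_inr, Matrix.cons_val_zero, Matrix.cons_val_one]
        show 4 * z2 ^ 2 * P + 16 * z1 ^ 2 * z2 ^ 2 + (1 - 4 * P - 4 * z1 ^ 2) ^ 2 < ε
        rw [hz1, hz2]
        have hP' : 0 ≤ P := hP
        nlinarith [mul_nonneg hP' hε.le]
      · rw [hfd, det_dmuS]
        simp only [Sum.elim_inl, Sum.elim_inr, Matrix.cons_val_zero, Matrix.cons_val_one]
        rw [det_bm_of_ne _ _ hz2'.ne']
        refine mul_pos (mul_pos (hev.pow_pos (by nlinarith)) ?_) hx2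
        have hP' : 0 ≤ μ x ⬝ᵥ μ x := hP
        nlinarith
    · intro x hx
      rw [dot_muS] at hx
      have hP := hnn (μ fun b => x (Sum.inl b))
      set P := μ (fun b => x (Sum.inl b)) ⬝ᵥ μ (fun b => x (Sum.inl b)) with hPdef
      set z1 := x (Sum.inr 0) with hz1def
      set z2 := x (Sum.inr 1) with hz2def
      have hq : 4 * P + 4 * z1 ^ 2 ≤ 1.71 := by
        by_contra hcon
        push Not at hcon
        nlinarith [mul_nonneg (sq_nonneg z2) hP, mul_nonneg (sq_nonneg z1) (sq_nonneg z2),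
          sq_nonneg (4 * P + 4 * z1 ^ 2 - 1.71)]
      have hq2 : 0.29 ≤ 4 * P + 4 * z1 ^ 2 := by
        by_contra hcon
        push Not at hcon
        nlinarith [mul_nonneg (sq_nonneg z2) hP, mul_nonneg (sq_nonneg z1) (sq_nonneg z2)]
      have hz1s : z1 ^ 2 ≤ 0.81 := by nlinarith
      have hz2s : z2 ^ 2 ≤ 0.81 := by
        by_contra hcon
        push Not at hcon
        have h1 : z2 ^ 2 * (4 * P + 4 * z1 ^ 2) ≤ 1 / 2 - (1 - (4 * P + 4 * z1 ^ 2)) ^ 2 := by
          nlinarith [mul_nonneg (sq_nonneg z1) (sq_nonneg z2)]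
        have h2 : 0.81 * (4 * P + 4 * z1 ^ 2) ≤ z2 ^ 2 * (4 * P + 4 * z1 ^ 2) :=
          mul_le_mul_of_nonneg_right hcon.le (by linarith)
        nlinarith [sq_nonneg (4 * P + 4 * z1 ^ 2 - 0.595)]
      rintro (a | a)
      · exact hbd (fun b => x (Sum.inl b)) (by nlinarith) a
      · fin_cases a
        · show |z1| ≤ 9 / 10
          exact abs_le_of_sq_le_sq (by norm_num; linarith) (by norm_num)
        · show |z2| ≤ 9 / 10
          exact abs_le_of_sq_le_sq (by norm_num; linarith) (by norm_num)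

theorem muLemma : MuLemma := by
  intro j
  obtain ⟨ι, hF, hD, comp, var, μ, _, h⟩ := muLemma_aux j
  exact ⟨ι, hF, hD, comp, var, μ, h⟩

end Pool.Agent.Metab
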