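import Mathlib

set_option autoImplicit false

namespace Pool.Agent.Metab

open MeasureTheory Set Metric
open scoped ContDiff NNReal Pointwise

section
variable {E : Type} [NormedAddCommGroup E] [NormedSpace ℝ E] [FiniteDimensional ℝ E]

theorem det_cont {X : Type} [TopologicalSpace X] {A : X → E →L[ℝ] E} (hA : Continuous A) :
    Continuous fun x => (A x).det :=
  ContinuousLinearMap.continuous_det.comp hA

/-- `det (s + A) > 0` for `s > ‖A‖`. -/
theorem det_pos_of_lt {C s : ℝ} (hs : C < s) (hC : 0 ≤ C) (A : E →L[ℝ] E) (hA : ∀ v, ‖A v‖ ≤ C * ‖v‖) :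
    0 < (s • ContinuousLinearMap.id ℝ E + A).det := by
  have hs0 : 0 < s := lt_of_le_of_lt hC hs
  have hne : ∀ τ ∈ Icc (0 : ℝ) 1, (s • ContinuousLinearMap.id ℝ E + τ • A).det ≠ 0 := by
    intro τ hτ h0
    have h1 : LinearMap.det ((s • ContinuousLinearMap.id ℝ E + τ • A : E →L[ℝ] E) : E →ₗ[ℝ] E) = 0 := h0
    have h2 := LinearMap.bot_lt_ker_of_det_eq_zero h1
    obtain ⟨v, hv, hv0⟩ := (Submodule.ne_bot_iff _).1 h2.ne'
    have h3 : s • v + τ • A v = 0 := LinearMap.mem_ker.1 hv
    have h4 : ‖s • v‖ = ‖τ • A v‖ := by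
      rw [eq_neg_of_add_eq_zero_left h3, norm_neg]
    rw [norm_smul, norm_smul, Real.norm_eq_abs, Real.norm_eq_abs, abs_of_pos hs0,
      abs_of_nonneg hτ.1] at h4
    have h5 : 0 < ‖v‖ := norm_pos_iff.2 hv0
    have h6 : τ * ‖A v‖ ≤ 1 * (C * ‖v‖) :=
      mul_le_mul hτ.2 (hA v) (norm_nonneg _) zero_le_one
    nlinarith
  have hc : Continuous fun τ : ℝ => (s • ContinuousLinearMap.id ℝ E + τ • A).det :=
    det_cont (continuous_const.add (continuous_id.smul continuous_const))
  by_contra hcon
  push Not at hcon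
  have h0 : 0 < (s • ContinuousLinearMap.id ℝ E + (0 : ℝ) • A).det := by
    rw [zero_smul, add_zero]
    show 0 < LinearMap.det ((s • ContinuousLinearMap.id ℝ E : E →L[ℝ] E) : E →ₗ[ℝ] E)
    have : ((s • ContinuousLinearMap.id ℝ E : E →L[ℝ] E) : E →ₗ[ℝ] E) = s • LinearMap.id := rfl
    rw [this, LinearMap.det_smul, LinearMap.det_id, mul_one]
    positivity
  have h1 : (s • ContinuousLinearMap.id ℝ E + (1 : ℝ) • A).det ≤ 0 := by
    rw [one_smul]; exact hcon
  have := intermediate_value_Icc' (zero_le_one) hc.continuousOn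
  obtain ⟨τ, hτ, hτ0⟩ := this ⟨h1, h0.le⟩
  exact hne τ hτ hτ0

/-- weights for recovering the value at `0`. -/
theorem exists_weights (n : ℕ) (C : ℝ) : ∃ (v w : ℕ → ℝ), (∀ k, C < v k) ∧
    ∀ p : Polynomial ℝ, p.natDegree ≤ n →
      p.eval 0 = ∑ k ∈ Finset.range (n + 1), w k * p.eval (v k) := by
  let v : ℕ → ℝ := fun k => C + 1 + k
  have hv : Set.InjOn v (Finset.range (n + 1) : Set ℕ) := by
    intro a _ b _ hab
    simpa [v] using hab
  refine ⟨v, fun k => (Lagrange.basis (Finset.range (n + 1)) v k).eval 0, fun k => ?_, fun p hp => ?_⟩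
  · show C < C + 1 + k
    have : (0 : ℝ) ≤ k := Nat.cast_nonneg k
    linarith
  · have hd : p.degree < (Finset.range (n + 1)).card := by
      rw [Finset.card_range]
      refine lt_of_le_of_lt Polynomial.degree_le_natDegree ?_
      exact_mod_cast Nat.lt_succ_of_le hp
    have h1 := Lagrange.eq_interpolate hv hd
    conv_lhs => rw [h1]
    rw [Lagrange.interpolate_apply, Polynomial.eval_finsetSum]
    refine Finset.sum_congr rfl fun k _ => ?_
    rw [Polynomial.eval_mul, Polynomial.eval_C, mul_comm]

variable [MeasurableSpace E] [BorelSpace E] (μ : Measure E) [μ.IsAddHaarMeasure]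

theorem integral_det_shift {u : E → E} (hu : ContDiff ℝ 1 u) {C : ℝ≥0} (hC : LipschitzWith C u)
    {r : ℝ} (hr : tsupport u ⊆ closedBall 0 r) {s : ℝ} (hs : C < s) :
    ∫ x in closedBall (0 : E) r, (s • ContinuousLinearMap.id ℝ E + fderiv ℝ u x).det ∂μ =
      s ^ Module.finrank ℝ E * μ.real (closedBall 0 r) := by
  have hs0 : 0 < s := lt_of_le_of_lt C.2 hs
  let g : E → E := fun x => s • x + u x
  have hg : ∀ x, HasFDerivAt g (s • ContinuousLinearMap.id ℝ E + fderiv ℝ u x) x := fun x =>
    ((hasFDerivAt_id x).const_smul s).add ((hu.differentiable one_ne_zero) x).hasFDerivAt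
  have hinj : Function.Injective g := by
    intro x y hxy
    by_contra hne
    have h1 : s • (x - y) = u y - u x := by
      have : s • x + u x = s • y + u y := hxy
      rw [smul_sub]
      rw [sub_eq_sub_iff_add_eq_add, this, add_comm]
    have h2 : s * ‖x - y‖ = ‖u y - u x‖ := by
      rw [← h1, norm_smul, Real.norm_eq_abs, abs_of_pos hs0]
    have h3 : ‖u y - u x‖ ≤ C * ‖x - y‖ := by
      have := hC.dist_le_mul y x
      rwa [dist_eq_norm, dist_eq_norm, norm_sub_rev y x] at this
    have h4 : 0 < ‖x - y‖ := norm_pos_iff.2 (sub_ne_zero.2 hne)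
    nlinarith
  have hsurj : Function.Surjective g := by
    intro y
    let f : E → E := fun x => s⁻¹ • (y - u x)
    have hf : ContractingWith (C / Real.toNNReal s) f := by
      refine ⟨?_, ?_⟩
      · rw [div_lt_one₀ (Real.toNNReal_pos.2 hs0), ← NNReal.coe_lt_coe, Real.coe_toNNReal s hs0.le]
        exact hs
      · refine LipschitzWith.of_dist_le_mul fun a b => ?_
        rw [dist_eq_norm]
        have e1 : f a - f b = s⁻¹ • (u b - u a) := by
          show s⁻¹ • (y - u a) - s⁻¹ • (y - u b) = _
          rw [← smul_sub]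
          congr 1
          abel
        rw [e1, norm_smul, Real.norm_eq_abs, abs_of_pos (inv_pos.2 hs0), NNReal.coe_div,
          Real.coe_toNNReal s hs0.le, div_eq_inv_mul, mul_assoc]
        refine mul_le_mul_of_nonneg_left ?_ (inv_pos.2 hs0).le
        have := hC.dist_le_mul b a
        rwa [dist_eq_norm, dist_comm] at this
    refine ⟨ContractingWith.fixedPoint f hf, ?_⟩
    have h1 : f (ContractingWith.fixedPoint f hf) = ContractingWith.fixedPoint f hf :=
      hf.fixedPoint_isFixedPt
    set z := ContractingWith.fixedPoint f hf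
    show s • z + u z = y
    have h2 : s • f z = y - u z := by
      show s • (s⁻¹ • (y - u z)) = _
      rw [smul_smul, mul_inv_cancel₀ hs0.ne', one_smul]
    rw [h1] at h2
    rw [h2, sub_add_cancel]
  have hout : ∀ x ∉ closedBall (0 : E) r, g x = s • x := by
    intro x hx
    have : u x = 0 := image_eq_zero_of_notMem_tsupport fun h => hx (hr h)
    show s • x + u x = _
    rw [this, add_zero]
  have himg : g '' closedBall 0 r = s • closedBall (0 : E) r := by
    have hb : Function.Bijective fun x : E => s • x := (MulAction.bijective (Units.mk0 s hs0.ne'))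
    have h1 : (g '' closedBall 0 r)ᶜ = (s • closedBall (0 : E) r)ᶜ := by
      rw [← Set.image_compl_eq ⟨hinj, hsurj⟩, ← Set.image_smul, ← Set.image_compl_eq hb]
      apply Set.image_congr
      intro x hx
      exact hout x hx
    exact compl_injective h1
  have h1 := integral_image_eq_integral_abs_det_fderiv_smul μ (measurableSet_closedBall (x := (0 : E)) (ε := r))
    (fun x _ => (hg x).hasFDerivWithinAt) hinj.injOn (fun _ => (1 : ℝ))
  rw [himg] at h1
  have hpos : ∀ x, |(s • ContinuousLinearMap.id ℝ E + fderiv ℝ u x).det| =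
      (s • ContinuousLinearMap.id ℝ E + fderiv ℝ u x).det := fun x =>
    abs_of_pos (det_pos_of_lt hs C.2 _ fun v => by
      refine (ContinuousLinearMap.le_opNorm _ v).trans ?_
      exact mul_le_mul_of_nonneg_right (norm_fderiv_le_of_lipschitz ℝ hC) (norm_nonneg v))
  simp only [hpos, smul_eq_mul, mul_one] at h1
  rw [← h1]
  rw [setIntegral_const, smul_eq_mul, mul_one, Measure.real, Measure.addHaar_smul,
    ENNReal.toReal_mul, ENNReal.toReal_ofReal (abs_nonneg _), abs_of_nonneg (by positivity)]
  rfl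

theorem det_zero_clm [Nontrivial E] : (0 : E →L[ℝ] E).det = 0 := by
  show LinearMap.det (0 : E →ₗ[ℝ] E) = 0
  rw [LinearMap.det_zero, zero_pow]
  exact Module.finrank_pos.ne'

theorem fderiv_det_support [Nontrivial E] {u : E → E} (hc : HasCompactSupport u) :
    HasCompactSupport fun x => (fderiv ℝ u x).det := by
  have := (hc.fderiv ℝ)
  exact this.comp_left (g := fun A : E →L[ℝ] E => A.det) det_zero_clm

theorem integral_det_eq_zero [Nontrivial E] {u : E → E} (hu : ContDiff ℝ 1 u)
    (hc : HasCompactSupport u) : ∫ x, (fderiv ℝ u x).det ∂μ = 0 := by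
  obtain ⟨C, hC⟩ := hu.lipschitzWith_of_hasCompactSupport hc one_ne_zero
  obtain ⟨r, hr⟩ := hc.isCompact.isBounded.subset_closedBall (0 : E)
  obtain ⟨v, w, hv, hw⟩ := exists_weights (Module.finrank ℝ E) C
  have hfc : Continuous (fderiv ℝ u) := hu.continuous_fderiv one_ne_zero
  have h1 : ∀ x, (fderiv ℝ u x).det = ∑ k ∈ Finset.range (Module.finrank ℝ E + 1),
      w k * (v k • ContinuousLinearMap.id ℝ E + fderiv ℝ u x).det := by
    intro x
    have h2 := hw (LinearMap.charpoly (-(fderiv ℝ u x : E →ₗ[ℝ] E)))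
      (by rw [LinearMap.charpoly_natDegree])
    simp only [LinearMap.eval_charpoly, sub_neg_eq_add] at h2
    rw [map_zero, zero_add] at h2
    exact h2
  have h0 : ∫ x, (fderiv ℝ u x).det ∂μ = ∫ x in closedBall (0 : E) r, (fderiv ℝ u x).det ∂μ := by
    symm
    apply setIntegral_eq_integral_of_forall_compl_eq_zero
    intro x hx
    have : fderiv ℝ u x = 0 := by
      apply image_eq_zero_of_notMem_tsupport
      intro h
      exact hx (hr (tsupport_fderiv_subset ℝ h))
    rw [this, det_zero_clm]
  rw [h0]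
  simp only [h1]
  rw [integral_finsetSum]
  · have h3 : ∀ k, ∫ x in closedBall (0 : E) r,
        w k * (v k • ContinuousLinearMap.id ℝ E + fderiv ℝ u x).det ∂μ =
        w k * (v k) ^ Module.finrank ℝ E * μ.real (closedBall 0 r) := by
      intro k
      rw [integral_const_mul, integral_det_shift μ hu hC hr (hv k), mul_assoc]
    simp only [h3]
    rw [← Finset.sum_mul]
    have h4 := hw (Polynomial.X ^ Module.finrank ℝ E) (by rw [Polynomial.natDegree_X_pow])
    simp only [Polynomial.eval_pow, Polynomial.eval_X] at h4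
    rw [← h4, zero_pow Module.finrank_pos.ne', zero_mul]
  · intro k _
    apply Integrable.const_mul
    exact ((det_cont (continuous_const.add hfc)).continuousOn).integrableOn_compact
      (isCompact_closedBall _ _)

theorem integral_det_sub_eq_zero [Nontrivial E] {G0 G1 : E → E} (h0 : ContDiff ℝ 1 G0)
    (h1 : ContDiff ℝ 1 G1) {K : Set E} (hK : IsCompact K) (h : ∀ x ∉ K, G1 x = G0 x) :
    ∫ x, ((fderiv ℝ G1 x).det - (fderiv ℝ G0 x).det) ∂μ = 0 := by
  obtain ⟨r, hr⟩ := hK.isBounded.subset_closedBall (0 : E)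
  let R : ℝ := max r 1 + 1
  have hR : 0 < R := by
    have : (1 : ℝ) ≤ max r 1 := le_max_right _ _
    show 0 < max r 1 + 1
    linarith
  have hrR : r < R := by
    have : r ≤ max r 1 := le_max_left _ _
    show r < max r 1 + 1
    linarith
  let χ : ContDiffBump (0 : E) := ⟨R, 2 * R, hR, by linarith⟩
  let u0 : E → E := fun x => χ x • G0 x
  let u1 : E → E := fun x => χ x • G1 x
  have hu0 : ContDiff ℝ 1 u0 := χ.contDiff.smul h0
  have hu1 : ContDiff ℝ 1 u1 := χ.contDiff.smul h1
  have hc0 : HasCompactSupport u0 := χ.hasCompactSupport.smul_right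
  have hc1 : HasCompactSupport u1 := χ.hasCompactSupport.smul_right
  have hK' : IsClosed K := hK.isClosed
  have hpt : ∀ x, (fderiv ℝ G1 x).det - (fderiv ℝ G0 x).det =
      (fderiv ℝ u1 x).det - (fderiv ℝ u0 x).det := by
    intro x
    by_cases hx : x ∈ ball (0 : E) R
    · have hχ : ∀ᶠ y in nhds x, χ y = 1 := by
        filter_upwards [isOpen_ball.mem_nhds hx] with y hy
        exact χ.one_of_mem_closedBall (ball_subset_closedBall hy)
      have e0 : u0 =ᶠ[nhds x] G0 := by
        filter_upwards [hχ] with y hy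
        show χ y • G0 y = G0 y
        rw [hy, one_smul]
      have e1 : u1 =ᶠ[nhds x] G1 := by
        filter_upwards [hχ] with y hy
        show χ y • G1 y = G1 y
        rw [hy, one_smul]
      rw [e0.fderiv_eq, e1.fderiv_eq]
    · have hxK : x ∈ Kᶜ := fun h' => hx (by
        have := hr h'
        rw [mem_closedBall] at this
        rw [mem_ball]
        linarith)
      have e : G1 =ᶠ[nhds x] G0 := by
        filter_upwards [hK'.isOpen_compl.mem_nhds hxK] with y hy
        exact h y hy
      have e' : u1 =ᶠ[nhds x] u0 := by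
        filter_upwards [e] with y hy
        show χ y • G1 y = χ y • G0 y
        rw [hy]
      rw [e.fderiv_eq, e'.fderiv_eq, sub_self, sub_self]
  simp only [hpt]
  have hi : ∀ {u : E → E}, ContDiff ℝ 1 u → HasCompactSupport u →
      Integrable (fun x => (fderiv ℝ u x).det) μ := fun {u} hu hc =>
    (det_cont (hu.continuous_fderiv one_ne_zero)).integrable_of_hasCompactSupport
      (fderiv_det_support hc)
  rw [integral_sub (hi hu1 hc1) (hi hu0 hc0), integral_det_eq_zero μ hu1 hc1,
    integral_det_eq_zero μ hu0 hc0, sub_zero]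

end

end Pool.Agent.Metab
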