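import Mathlib
import Pool.Agent.Metab.NullLag
import Pool.Agent.Metab.Nonfree

set_option autoImplicit false

namespace Pool.Agent.Metab

open MeasureTheory Set Metric
open scoped ContDiff NNReal

section theta

/-- tent function -/
noncomputable def tent (ε t : ℝ) : ℝ := max 0 (ε - |t|)

theorem tent_cont (ε : ℝ) : Continuous (tent ε) := by
  unfold tent
  fun_prop

theorem tent_nonneg (ε t : ℝ) : 0 ≤ tent ε t := le_max_left _ _

theorem tent_eq_zero {ε t : ℝ} (h : ε ≤ |t|) : tent ε t = 0 := max_eq_left (by linarith)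

theorem tent_pos {ε t : ℝ} (h : |t| < ε) : 0 < tent ε t := lt_max_of_lt_right (by linarith)

/-- primitive of the tent -/
noncomputable def step (ε t : ℝ) : ℝ := ∫ s in (0 : ℝ)..t, tent ε s

theorem hasDerivAt_step (ε t : ℝ) : HasDerivAt (step ε) (tent ε t) t :=
  intervalIntegral.integral_hasDerivAt_right ((tent_cont ε).intervalIntegrable _ _)
    ((tent_cont ε).stronglyMeasurableAtFilter _ _) (tent_cont ε).continuousAt

theorem contDiff_step (ε : ℝ) : ContDiff ℝ 1 (step ε) := by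
  rw [contDiff_one_iff_deriv]
  refine ⟨fun t => (hasDerivAt_step ε t).differentiableAt, ?_⟩
  have : deriv (step ε) = tent ε := funext fun t => (hasDerivAt_step ε t).deriv
  rw [this]
  exact tent_cont ε

variable {ι : Type} [Fintype ι] [DecidableEq ι]

/-- coordinatewise step map -/
noncomputable def Th (ε : ℝ) (y : ι → ℝ) : ι → ℝ := fun a => step ε (y a)

theorem contDiff_Th (ε : ℝ) : ContDiff ℝ 1 (Th ε : (ι → ℝ) → (ι → ℝ)) := by
  rw [contDiff_pi]
  intro a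
  exact (contDiff_step ε).comp (contDiff_apply ℝ ℝ a)

/-- the derivative of the step map -/
noncomputable def dTh (ε : ℝ) (y : ι → ℝ) : (ι → ℝ) →L[ℝ] (ι → ℝ) :=
  ContinuousLinearMap.pi fun a => tent ε (y a) • ContinuousLinearMap.proj a

theorem hasFDerivAt_Th (ε : ℝ) (y : ι → ℝ) : HasFDerivAt (Th ε) (dTh ε y) y := by
  unfold dTh
  rw [hasFDerivAt_pi]
  intro a
  have h1 : HasFDerivAt (fun z : ι → ℝ => z a) (ContinuousLinearMap.proj a : (ι → ℝ) →L[ℝ] ℝ) y :=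
    hasFDerivAt_apply a y
  have h0 : HasDerivAt (step ε) (tent ε (y a)) ((fun z : ι → ℝ => z a) y) := hasDerivAt_step ε (y a)
  exact h0.comp_hasFDerivAt y h1

theorem det_dTh (ε : ℝ) (y : ι → ℝ) : (dTh ε y).det = ∏ a, tent ε (y a) := by
  have h : LinearMap.toMatrix' (dTh ε y : (ι → ℝ) →ₗ[ℝ] (ι → ℝ)) =
      Matrix.diagonal fun a => tent ε (y a) := by
    ext i j
    rw [LinearMap.toMatrix'_apply]
    by_cases hij : i = j
    · subst hij
      simp [dTh]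
    · simp [dTh, hij]
  rw [ContinuousLinearMap.det, ← LinearMap.det_toMatrix', h, Matrix.det_diagonal]

theorem det_comp_Th (ε : ℝ) {G : (ι → ℝ) → (ι → ℝ)} (hG : Differentiable ℝ G) (x : ι → ℝ) :
    (fderiv ℝ (fun x => Th ε (G x)) x).det = (∏ a, tent ε (G x a)) * (fderiv ℝ G x).det := by
  have h : HasFDerivAt (fun x => Th ε (G x)) ((dTh ε (G x)).comp (fderiv ℝ G x)) x :=
    (hasFDerivAt_Th ε (G x)).comp x (hG x).hasFDerivAt
  rw [h.fderiv, ← det_dTh]
  exact LinearMap.det_comp _ _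

end theta

section
variable {ι : Type} [Fintype ι] [DecidableEq ι]

theorem norm_sq_le_dot (y : ι → ℝ) : ‖y‖ ^ 2 ≤ y ⬝ᵥ y := by
  have h0 : 0 ≤ y ⬝ᵥ y := Finset.sum_nonneg fun a _ => mul_self_nonneg _
  have : ‖y‖ ≤ Real.sqrt (y ⬝ᵥ y) := by
    rw [pi_norm_le_iff_of_nonneg (Real.sqrt_nonneg _)]
    intro a
    rw [Real.norm_eq_abs]
    apply Real.abs_le_sqrt
    rw [sq]
    exact Finset.single_le_sum (f := fun a => y a * y a) (fun a _ => mul_self_nonneg _)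
      (Finset.mem_univ a)
  calc ‖y‖ ^ 2 ≤ Real.sqrt (y ⬝ᵥ y) ^ 2 := pow_le_pow_left₀ (norm_nonneg _) this 2
    _ = y ⬝ᵥ y := Real.sq_sqrt h0

theorem abs_dot_le (y z : ι → ℝ) : |y ⬝ᵥ z| ≤ Fintype.card ι * (‖y‖ * ‖z‖) := by
  unfold dotProduct
  refine (Finset.abs_sum_le_sum_abs _ _).trans ?_
  refine (Finset.sum_le_card_nsmul _ _ (‖y‖ * ‖z‖) fun a _ => ?_).trans ?_
  · rw [abs_mul]
    exact mul_le_mul (norm_le_pi_norm y a) (norm_le_pi_norm z a) (abs_nonneg _) (norm_nonneg _)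
  · rw [nsmul_eq_mul, Finset.card_univ]

theorem obstruction_nonempty [Nonempty ι] (μ V : (ι → ℝ) → (ι → ℝ)) (c : ℝ) (hc : 0 < c)
    (hμ : ContDiff ℝ ∞ μ) (hV : Continuous V) (hK : IsCompact {x | μ x ⬝ᵥ μ x ≤ c})
    (hdet : ∀ x, 0 ≤ (fderiv ℝ μ x).det)
    (hpos : ∀ ε > 0, ∃ x, μ x ⬝ᵥ μ x < ε ∧ 0 < (fderiv ℝ μ x).det)
    (htan : ∀ x, μ x ⬝ᵥ μ x = c → V x ⬝ᵥ μ x = 0) :
    ∃ x, μ x ⬝ᵥ μ x ≤ c ∧ V x = 0 := by
  by_contra hcon
  push Not at hcon
  have hμc : Continuous μ := hμ.continuous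
  have hμ1 : ContDiff ℝ 1 μ := hμ.of_le (by simp)
  have hρ1 : ContDiff ℝ 1 fun x => μ x ⬝ᵥ μ x := by
    unfold dotProduct
    exact ContDiff.sum fun a _ => (contDiff_pi.1 hμ1 a).mul (contDiff_pi.1 hμ1 a)
  have hρc : Continuous fun x => μ x ⬝ᵥ μ x := hρ1.continuous
  set K : Set (ι → ℝ) := {x | μ x ⬝ᵥ μ x ≤ c} with hKdef
  have hKne : K.Nonempty := by
    obtain ⟨x, hx, _⟩ := hpos c hc
    exact ⟨x, hx.le⟩
  -- lower bound for `V`
  obtain ⟨δ, hδ, hδV⟩ : ∃ δ > 0, ∀ x ∈ K, δ ≤ ‖V x‖ := by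
    obtain ⟨x0, hx0, hmin⟩ := hK.exists_isMinOn hKne (hV.norm.continuousOn)
    exact ⟨‖V x0‖, norm_pos_iff.2 (hcon x0 hx0), fun x hx => hmin hx⟩
  have hsc : 0 < Real.sqrt c := Real.sqrt_pos.2 hc
  have hμK : ∀ x ∈ K, ‖μ x‖ ≤ Real.sqrt c := fun x hx =>
    Real.le_sqrt_of_sq_le ((norm_sq_le_dot (μ x)).trans hx)
  let N : ℝ := Fintype.card ι
  have hN : 0 < N := by
    show (0 : ℝ) < Fintype.card ι
    exact_mod_cast Fintype.card_pos
  let Λ : ℝ := 4 * Real.sqrt c / δ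
  have hΛ : 0 < Λ := by
    show 0 < 4 * Real.sqrt c / δ
    positivity
  have hΛδ : Λ * δ = 4 * Real.sqrt c := div_mul_cancel₀ _ hδ.ne'
  let D : ℝ := Λ * (N * Real.sqrt c)
  have hD : 0 < D := by
    show 0 < Λ * (N * Real.sqrt c)
    positivity
  let η : ℝ := min (δ / 2) (c / (2 * D))
  have hη : 0 < η := lt_min (by positivity) (by positivity)
  have hη1 : η ≤ δ / 2 := min_le_left _ _
  have hη2 : D * η < c := by
    have h1 : η ≤ c / (2 * D) := min_le_right _ _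
    have h2 : D * η ≤ D * (c / (2 * D)) := mul_le_mul_of_nonneg_left h1 hD.le
    have h3 : D * (c / (2 * D)) = c / 2 := by field_simp
    linarith
  obtain ⟨W, hW, hWV, -⟩ := hV.exists_contDiff_approx 1 (ε := fun _ => η) continuous_const
    (fun _ => hη)
  have hWV' : ∀ x, ‖W x - V x‖ ≤ η := fun x => by
    have := hWV x
    rw [dist_eq_norm] at this
    exact this.le
  have hWc : Continuous W := hW.continuous
  have hWK : ∀ x ∈ K, δ / 2 ≤ ‖W x‖ := fun x hx => by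
    have h1 := hδV x hx
    have h2 := hWV' x
    have h3 : ‖V x‖ ≤ ‖W x‖ + ‖W x - V x‖ := by
      have := norm_sub_le (W x) (W x - V x)
      rwa [sub_sub_cancel] at this
    linarith
  -- claim A
  have claimA : ∀ x, μ x ⬝ᵥ μ x = c → ∀ s ∈ Icc (0 : ℝ) Λ, μ x + s • W x ≠ 0 := by
    intro x hx s hs h0
    have h1 : (μ x + s • W x) ⬝ᵥ μ x = 0 := by rw [h0, zero_dotProduct]
    have h2 : W x ⬝ᵥ μ x = (W x - V x) ⬝ᵥ μ x := by rw [sub_dotProduct, htan x hx, sub_zero]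
    rw [add_dotProduct, smul_dotProduct, hx, h2, smul_eq_mul] at h1
    have h3 := abs_dot_le (W x - V x) (μ x)
    have h4 : ‖W x - V x‖ * ‖μ x‖ ≤ η * Real.sqrt c :=
      mul_le_mul (hWV' x) (hμK x hx.le) (norm_nonneg _) hη.le
    have h5 : |(W x - V x) ⬝ᵥ μ x| ≤ N * (η * Real.sqrt c) :=
      h3.trans (mul_le_mul_of_nonneg_left h4 hN.le)
    have h6 : s * |(W x - V x) ⬝ᵥ μ x| ≤ Λ * (N * (η * Real.sqrt c)) :=
      mul_le_mul hs.2 h5 (abs_nonneg _) hΛ.le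
    have h7 : Λ * (N * (η * Real.sqrt c)) = D * η := by
      show Λ * (N * (η * Real.sqrt c)) = Λ * (N * Real.sqrt c) * η
      ring
    have h8 : -(s * |(W x - V x) ⬝ᵥ μ x|) ≤ s * ((W x - V x) ⬝ᵥ μ x) := by
      rw [← mul_neg]
      exact mul_le_mul_of_nonneg_left (neg_abs_le _) hs.1
    linarith
  -- the compact set of zeros
  let Z : Set ((ι → ℝ) × ℝ) := (K ×ˢ Icc (0 : ℝ) Λ) ∩ {z | μ z.1 + z.2 • W z.1 = 0}
  have hZ : IsCompact Z := by
    apply (hK.prod isCompact_Icc).inter_right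
    exact isClosed_eq ((hμc.comp continuous_fst).add
      (continuous_snd.smul (hWc.comp continuous_fst))) continuous_const
  obtain ⟨c', hc'c, hc'⟩ : ∃ c' < c, ∀ z ∈ Z, μ z.1 ⬝ᵥ μ z.1 ≤ c' := by
    rcases Z.eq_empty_or_nonempty with h | h
    · exact ⟨0, hc, fun z hz => by rw [h] at hz; exact absurd hz (Set.notMem_empty z)⟩
    · obtain ⟨z0, hz0, hmax⟩ := hZ.exists_isMaxOn h ((hρc.comp continuous_fst).continuousOn)
      refine ⟨μ z0.1 ⬝ᵥ μ z0.1, ?_, fun z hz => hmax hz⟩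
      refine lt_of_le_of_ne hz0.1.1 fun he => ?_
      exact claimA z0.1 he z0.2 hz0.1.2 hz0.2
  let c2 : ℝ := (c + c') / 2
  have hc2 : c' < c2 := by show c' < (c + c') / 2; linarith
  have hc2' : c2 < c := by show (c + c') / 2 < c; linarith
  let τ : (ι → ℝ) → ℝ := fun x => Λ * Real.smoothTransition ((c2 - μ x ⬝ᵥ μ x) / (c2 - c'))
  have hτ : ContDiff ℝ 1 τ := contDiff_const.mul
    (Real.smoothTransition.contDiff.comp ((contDiff_const.sub hρ1).div_const _))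
  have hτI : ∀ x, τ x ∈ Icc (0 : ℝ) Λ := fun x => by
    constructor
    · exact mul_nonneg hΛ.le (Real.smoothTransition.nonneg _)
    · exact (mul_le_mul_of_nonneg_left (Real.smoothTransition.le_one _) hΛ.le).trans (mul_one _).le
  have hτ1 : ∀ x, μ x ⬝ᵥ μ x ≤ c' → τ x = Λ := fun x hx => by
    show Λ * Real.smoothTransition ((c2 - μ x ⬝ᵥ μ x) / (c2 - c')) = Λ
    rw [Real.smoothTransition.one_of_one_le, mul_one]
    rw [le_div_iff₀ (by linarith)]
    linarith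
  have hτ0 : ∀ x, c2 ≤ μ x ⬝ᵥ μ x → τ x = 0 := fun x hx => by
    show Λ * Real.smoothTransition ((c2 - μ x ⬝ᵥ μ x) / (c2 - c')) = 0
    rw [Real.smoothTransition.zero_of_nonpos, mul_zero]
    exact div_nonpos_of_nonpos_of_nonneg (by linarith) (by linarith)
  let F : (ι → ℝ) → (ι → ℝ) := fun x => μ x + τ x • W x
  have hF : ContDiff ℝ 1 F := hμ1.add (hτ.smul hW)
  have hFout : ∀ x ∉ K, F x = μ x := fun x hx => by
    have h1 : c < μ x ⬝ᵥ μ x := not_le.1 hx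
    show μ x + τ x • W x = μ x
    rw [hτ0 x (by linarith), zero_smul, add_zero]
  have hFne : ∀ x ∈ K, F x ≠ 0 := by
    intro x hx h0
    have h1 : (x, τ x) ∈ Z := ⟨⟨hx, hτI x⟩, h0⟩
    have h2 : τ x = Λ := hτ1 x (hc' _ h1)
    have h3 : μ x = -(Λ • W x) := by
      have : μ x + τ x • W x = 0 := h0
      rw [h2] at this
      exact eq_neg_of_add_eq_zero_left this
    have h4 : ‖μ x‖ = Λ * ‖W x‖ := by
      rw [h3, norm_neg, norm_smul, Real.norm_eq_abs, abs_of_pos hΛ]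
    have h5 := hWK x hx
    have h6 := hμK x hx
    have h7 : Λ * (δ / 2) ≤ Λ * ‖W x‖ := mul_le_mul_of_nonneg_left h5 hΛ.le
    nlinarith
  -- a uniform lower bound
  obtain ⟨ε, hε, hεF, hεμ⟩ : ∃ ε > 0, (∀ x, ε ≤ ‖F x‖) ∧ ∀ x ∉ K, ε ≤ ‖μ x‖ := by
    obtain ⟨x0, hx0, hmin⟩ := hK.exists_isMinOn hKne (hF.continuous.norm.continuousOn)
    have hout : ∀ x ∉ K, Real.sqrt (c / N) ≤ ‖μ x‖ := fun x hx => by
      have h1 : c < μ x ⬝ᵥ μ x := not_le.1 hx
      have h2 := abs_dot_le (μ x) (μ x)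
      have h3 : c ≤ N * (‖μ x‖ * ‖μ x‖) := h1.le.trans ((le_abs_self _).trans h2)
      rw [Real.sqrt_le_left (norm_nonneg _), div_le_iff₀ hN]
      linarith
    refine ⟨min ‖F x0‖ (Real.sqrt (c / N)), lt_min (norm_pos_iff.2 (hFne x0 hx0))
      (Real.sqrt_pos.2 (by positivity)), fun x => ?_, fun x hx => (min_le_right _ _).trans (hout x hx)⟩
    by_cases hx : x ∈ K
    · exact (min_le_left _ _).trans (hmin hx)
    · rw [hFout x hx]
      exact (min_le_right _ _).trans (hout x hx)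
  have hprod0 : ∀ y : ι → ℝ, ε ≤ ‖y‖ → ∏ a, tent ε (y a) = 0 := by
    intro y hy
    obtain ⟨a, ha⟩ : ∃ a, ε ≤ |y a| := by
      by_contra h
      push Not at h
      have : ‖y‖ < ε := (pi_norm_lt_iff hε).2 fun a => by
        rw [Real.norm_eq_abs]; exact h a
      linarith
    exact Finset.prod_eq_zero (Finset.mem_univ a) (tent_eq_zero ha)
  let G0 : (ι → ℝ) → (ι → ℝ) := fun x => Th ε (F x)
  let G1 : (ι → ℝ) → (ι → ℝ) := fun x => Th ε (μ x)
  have hG0 : ContDiff ℝ 1 G0 := (contDiff_Th ε).comp hF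
  have hG1 : ContDiff ℝ 1 G1 := (contDiff_Th ε).comp hμ1
  have hG0d : ∀ x, (fderiv ℝ G0 x).det = 0 := fun x => by
    rw [det_comp_Th ε (hF.differentiable one_ne_zero), hprod0 _ (hεF x), zero_mul]
  have hG1d : ∀ x, (fderiv ℝ G1 x).det = (∏ a, tent ε (μ x a)) * (fderiv ℝ μ x).det := fun x =>
    det_comp_Th ε (hμ1.differentiable one_ne_zero) x
  have hint := integral_det_sub_eq_zero (volume : Measure (ι → ℝ)) hG0 hG1 hK (fun x hx => by
    show Th ε (μ x) = Th ε (F x)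
    rw [hFout x hx])
  simp only [hG0d, sub_zero] at hint
  have hcont : Continuous fun x => (fderiv ℝ G1 x).det :=
    det_cont (hG1.continuous_fderiv one_ne_zero)
  have hcs : HasCompactSupport fun x => (fderiv ℝ G1 x).det := by
    refine HasCompactSupport.of_support_subset_isCompact hK fun x hx => ?_
    by_contra hxK
    apply hx
    show (fderiv ℝ G1 x).det = 0
    rw [hG1d, hprod0 _ (hεμ x hxK), zero_mul]
  have hnn : (0 : (ι → ℝ) → ℝ) ≤ fun x => (fderiv ℝ G1 x).det := fun x => by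
    show 0 ≤ (fderiv ℝ G1 x).det
    rw [hG1d]
    exact mul_nonneg (Finset.prod_nonneg fun a _ => tent_nonneg _ _) (hdet x)
  obtain ⟨x1, hx1, hx1d⟩ := hpos (ε ^ 2) (by positivity)
  have hne : (fderiv ℝ G1 x1).det ≠ 0 := by
    rw [hG1d]
    refine (mul_pos (Finset.prod_pos fun a _ => tent_pos ?_) hx1d).ne'
    have h1 : ‖μ x1‖ ^ 2 < ε ^ 2 := (norm_sq_le_dot _).trans_lt hx1
    have h2 : ‖μ x1‖ < ε := lt_of_pow_lt_pow_left₀ 2 hε.le h1
    exact (norm_le_pi_norm (μ x1) a).trans_lt h2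
  have := hcont.integral_pos_of_hasCompactSupport_nonneg_nonzero (μ := volume) hcs hnn hne
  linarith

end

theorem obstructionLemma : ObstructionLemma := by
  intro ι hF hD μ V c hc hμ hV hK hdet hpos htan
  rcases isEmpty_or_nonempty ι with h | h
  · exact ⟨0, by simp [dotProduct, hc.le], funext fun a => h.elim a⟩
  · exact obstruction_nonempty μ V c hc hμ hV hK hdet hpos htan

end Pool.Agent.Metab
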